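import Pool.Agent.H378_PL.Refine

/-! Configurations, edge cuts, and the two reduction sites. -/

namespace Pool.Agent.H378_PL

open Finset

variable {P L : Type*} [DecidableEq P] [DecidableEq L] [Fintype P] [Fintype L]

/-- A combinatorial 3-configuration. -/
structure IsCfg (inc : P → L → Prop) : Prop where
  pt : ∀ p, ∃ i j k, i ≠ j ∧ i ≠ k ∧ j ≠ k ∧ ∀ x, inc p x ↔ x = i ∨ x = j ∨ x = k
  ln : ∀ x, ∃ p q r, p ≠ q ∧ p ≠ r ∧ q ≠ r ∧ ∀ t, inc t x ↔ t = p ∨ t = q ∨ t = r
  lin : ∀ p q i j, p ≠ q → inc p i → inc q i → inc p j → inc q j → i = j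

/-- Connectedness: a set of points and lines closed under incidence is empty or everything. -/
def Conn (inc : P → L → Prop) : Prop :=
  ∀ (X : Finset P) (Y : Finset L), (∀ p x, inc p x → (p ∈ X ↔ x ∈ Y)) →
    (X = ∅ ∧ Y = ∅) ∨ (X = univ ∧ Y = univ)

open Classical in
/-- The incident pairs leaving `(X, Y)`. -/
noncomputable def cutSet (inc : P → L → Prop) (X : Finset P) (Y : Finset L) : Finset (P × L) :=
  univ.filter (fun e => inc e.1 e.2 ∧ ¬ (e.1 ∈ X ↔ e.2 ∈ Y))

theorem mem_cutSet (inc : P → L → Prop) (X : Finset P) (Y : Finset L) (e : P × L) :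
    e ∈ cutSet inc X Y ↔ inc e.1 e.2 ∧ ¬ (e.1 ∈ X ↔ e.2 ∈ Y) := by
  simp [cutSet]

theorem cut_submodular (inc : P → L → Prop) (X X' : Finset P) (Y Y' : Finset L) :
    (cutSet inc (X ∩ X') (Y ∩ Y')).card + (cutSet inc (X ∪ X') (Y ∪ Y')).card ≤
      (cutSet inc X Y).card + (cutSet inc X' Y').card := by
  classical
  have key : ∀ A : Finset (P × L), A.card = ∑ e : P × L, if e ∈ A then 1 else 0 := by
    intro A
    simp
  rw [key, key, key, key, ← Finset.sum_add_distrib, ← Finset.sum_add_distrib]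
  apply Finset.sum_le_sum
  intro e _
  simp only [mem_cutSet, mem_inter, mem_union]
  by_cases h0 : inc e.1 e.2 <;> by_cases h1 : e.1 ∈ X <;> by_cases h2 : e.1 ∈ X' <;>
    by_cases h3 : e.2 ∈ Y <;> by_cases h4 : e.2 ∈ Y' <;> simp [h0, h1, h2, h3, h4]

theorem cut_empty_of_card_zero {inc : P → L → Prop} (hc : Conn inc) {X : Finset P} {Y : Finset L}
    (h : (cutSet inc X Y).card = 0) : (X = ∅ ∧ Y = ∅) ∨ (X = univ ∧ Y = univ) := by
  apply hc
  intro p x hpx
  by_contra hne
  have : (p, x) ∈ cutSet inc X Y := (mem_cutSet _ _ _ _).mpr ⟨hpx, hne⟩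
  rw [Finset.card_eq_zero.mp h] at this
  simp at this

/-- Incident pairs whose point is in `X`. -/
theorem count_points {inc : P → L → Prop} (hcfg : IsCfg inc) (X : Finset P) :
    ∃ A : Finset (P × L), (∀ e, e ∈ A ↔ inc e.1 e.2 ∧ e.1 ∈ X) ∧ A.card = 3 * X.card := by
  classical
  refine ⟨univ.filter (fun e => inc e.1 e.2 ∧ e.1 ∈ X), fun e => by simp, ?_⟩
  have : (univ.filter (fun e : P × L => inc e.1 e.2 ∧ e.1 ∈ X)) =
      (X.sigma (fun p => univ.filter (fun x => inc p x))).map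
        ⟨fun s => (s.1, s.2), by rintro ⟨a, b⟩ ⟨c, d⟩ h; simp at h; obtain ⟨rfl, rfl⟩ := h; rfl⟩ := by
    ext ⟨p, x⟩
    simp only [mem_filter, mem_univ, true_and, mem_map, mem_sigma, Sigma.exists]
    constructor
    · rintro ⟨h1, h2⟩
      exact ⟨p, x, ⟨h2, h1⟩, rfl⟩
    · rintro ⟨a, b, ⟨h1, h2⟩, h⟩
      cases h
      exact ⟨h2, h1⟩
  rw [this, card_map, card_sigma]
  rw [Finset.sum_const_nat (m := 3)]
  · ring
  · intro p _
    obtain ⟨i, j, k, hij, hik, hjk, h⟩ := hcfg.pt p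
    have : (univ.filter (fun x => inc p x)) = {i, j, k} := by
      ext x; simp [h]
    rw [this, card_eq_three]
    exact ⟨i, j, k, hij, hik, hjk, rfl⟩

/-- Incident pairs whose line is in `Y`. -/
theorem count_lines {inc : P → L → Prop} (hcfg : IsCfg inc) (Y : Finset L) :
    ∃ A : Finset (P × L), (∀ e, e ∈ A ↔ inc e.1 e.2 ∧ e.2 ∈ Y) ∧ A.card = 3 * Y.card := by
  classical
  refine ⟨univ.filter (fun e => inc e.1 e.2 ∧ e.2 ∈ Y), fun e => by simp, ?_⟩
  have : (univ.filter (fun e : P × L => inc e.1 e.2 ∧ e.2 ∈ Y)) =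
      (Y.sigma (fun x => univ.filter (fun p => inc p x))).map
        ⟨fun s => (s.2, s.1), by rintro ⟨a, b⟩ ⟨c, d⟩ h; simp at h; obtain ⟨rfl, rfl⟩ := h; rfl⟩ := by
    ext ⟨p, x⟩
    simp only [mem_filter, mem_univ, true_and, mem_map, mem_sigma, Sigma.exists]
    constructor
    · rintro ⟨h1, h2⟩
      exact ⟨x, p, ⟨h2, h1⟩, rfl⟩
    · rintro ⟨a, b, ⟨h1, h2⟩, h⟩
      cases h
      exact ⟨h2, h1⟩
  rw [this, card_map, card_sigma]
  rw [Finset.sum_const_nat (m := 3)]
  · ring
  · intro x _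
    obtain ⟨i, j, k, hij, hik, hjk, h⟩ := hcfg.ln x
    have : (univ.filter (fun p => inc p x)) = {i, j, k} := by
      ext x; simp [h]
    rw [this, card_eq_three]
    exact ⟨i, j, k, hij, hik, hjk, rfl⟩

/-- A cut of at most two incident pairs consists of one pair leaving through a point and one
leaving through a line. -/
theorem cut_structure {inc : P → L → Prop} (hcfg : IsCfg inc) (hc : Conn inc) (X : Finset P)
    (Y : Finset L) (h2 : (cutSet inc X Y).card ≤ 2) (hne : X.Nonempty ∨ Y.Nonempty)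
    (hproper : X ≠ univ ∨ Y ≠ univ) :
    ∃ p1 l2 p2 l1, p1 ∉ X ∧ l2 ∈ Y ∧ inc p1 l2 ∧ p2 ∈ X ∧ l1 ∉ Y ∧ inc p2 l1 ∧
      (∀ p x, inc p x → p ∉ X → x ∈ Y → p = p1 ∧ x = l2) ∧
      (∀ p x, inc p x → p ∈ X → x ∉ Y → p = p2 ∧ x = l1) := by
  classical
  obtain ⟨A, hA, hAc⟩ := count_points hcfg X
  obtain ⟨B, hB, hBc⟩ := count_lines hcfg Y
  -- A \ B: point inside, line outside; B \ A: the other way
  have hcut : cutSet inc X Y = (A \ B) ∪ (B \ A) := by
    ext e
    rw [mem_cutSet, mem_union, mem_sdiff, mem_sdiff, hA, hB]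
    tauto
  have hdisj : Disjoint (A \ B) (B \ A) := by
    rw [Finset.disjoint_left]
    intro e h1 h2
    rw [mem_sdiff] at h1 h2
    exact h1.2 h2.1
  have hcard : (cutSet inc X Y).card = (A \ B).card + (B \ A).card := by
    rw [hcut, card_union_of_disjoint hdisj]
  have hAB : (A \ B).card + (A ∩ B).card = A.card := Finset.card_sdiff_add_card_inter A B
  have hBA : (B \ A).card + (B ∩ A).card = B.card := Finset.card_sdiff_add_card_inter B A
  rw [Finset.inter_comm] at hBA
  have hpos : (cutSet inc X Y).card ≠ 0 := by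
    intro h0
    rcases cut_empty_of_card_zero hc h0 with ⟨h3, h4⟩ | ⟨h3, h4⟩
    · rcases hne with h | h
      · rw [h3] at h; exact Finset.not_nonempty_empty h
      · rw [h4] at h; exact Finset.not_nonempty_empty h
    · rcases hproper with h | h
      · exact h h3
      · exact h h4
  have hmod : (A \ B).card + 3 * Y.card = (B \ A).card + 3 * X.card := by omega
  have hle : (A \ B).card ≤ 2 := by omega
  have hle' : (B \ A).card ≤ 2 := by omega
  have h1 : (A \ B).card = 1 ∧ (B \ A).card = 1 := by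
    generalize (A \ B).card = a at *
    generalize (B \ A).card = b at *
    interval_cases a <;> interval_cases b <;> omega
  obtain ⟨h1, h1'⟩ := h1
  obtain ⟨⟨p2, l1⟩, he⟩ := Finset.card_eq_one.mp h1
  obtain ⟨⟨p1, l2⟩, he'⟩ := Finset.card_eq_one.mp h1'
  have m1 : ∀ p x, inc p x → p ∈ X → x ∉ Y → p = p2 ∧ x = l1 := by
    intro p x hpx hp hx
    have : (p, x) ∈ A \ B := by
      rw [mem_sdiff, hA, hB]
      exact ⟨⟨hpx, hp⟩, fun h => hx h.2⟩
    rw [he, mem_singleton, Prod.mk.injEq] at this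
    exact this
  have m2 : ∀ p x, inc p x → p ∉ X → x ∈ Y → p = p1 ∧ x = l2 := by
    intro p x hpx hp hx
    have : (p, x) ∈ B \ A := by
      rw [mem_sdiff, hA, hB]
      exact ⟨⟨hpx, hx⟩, fun h => hp h.2⟩
    rw [he', mem_singleton, Prod.mk.injEq] at this
    exact this
  have e1 : (p2, l1) ∈ A \ B := by rw [he]; exact mem_singleton_self _
  have e2 : (p1, l2) ∈ B \ A := by rw [he']; exact mem_singleton_self _
  rw [mem_sdiff, hA, hB] at e1
  rw [mem_sdiff, hA, hB] at e2
  refine ⟨p1, l2, p2, l1, ?_, e2.1.2, e2.1.1, e1.1.2, ?_, e1.1.1, m2, m1⟩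
  · intro h; exact e2.2 ⟨e2.1.1, h⟩
  · intro h; exact e1.2 ⟨e1.1.1, h⟩

theorem all_of_three {α : Type*} {Q : α → Prop} {i j k i' j' k' : α}
    (h : ∀ x, Q x → x = i ∨ x = j ∨ x = k) (h1 : i' ≠ j') (h2 : i' ≠ k') (h3 : j' ≠ k')
    (hi : Q i') (hj : Q j') (hk : Q k') : ∀ x, Q x → x = i' ∨ x = j' ∨ x = k' := by
  intro x hx
  rcases h x hx with rfl | rfl | rfl <;> rcases h i' hi with rfl | rfl | rfl <;>
    rcases h j' hj with rfl | rfl | rfl <;> rcases h k' hk with rfl | rfl | rfl <;>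
    simp_all

theorem three_mem {α : Type*} {Y : Finset α} {c d e i j k : α} (hi : i ∈ Y) (hj : j ∈ Y)
    (hk : k ∈ Y) (h1 : i ≠ j) (h2 : i ≠ k) (h3 : j ≠ k) (ki : i = c ∨ i = d ∨ i = e)
    (kj : j = c ∨ j = d ∨ j = e) (kk : k = c ∨ k = d ∨ k = e) : c ∈ Y ∧ d ∈ Y ∧ e ∈ Y := by
  rcases ki with rfl | rfl | rfl <;> rcases kj with rfl | rfl | rfl <;>
    rcases kk with rfl | rfl | rfl <;> simp_all

theorem two_not_three {α : Type*} {p r i j k : α} (h1 : i ≠ j) (h2 : i ≠ k) (h3 : j ≠ k)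
    (ki : i = p ∨ i = r) (kj : j = p ∨ j = r) (kk : k = p ∨ k = r) : False := by
  rcases ki with rfl | rfl <;> rcases kj with rfl | rfl <;> rcases kk with rfl | rfl <;> simp_all

theorem third_elt {α : Type*} {Q : α → Prop} {u v w a b : α} (h1 : u ≠ v) (h2 : u ≠ w)
    (h3 : v ≠ w) (h : ∀ x, Q x ↔ x = u ∨ x = v ∨ x = w) (ha : Q a) (hb : Q b) (hab : a ≠ b) :
    ∃ c, Q c ∧ c ≠ a ∧ c ≠ b ∧ ∀ x, Q x → x = a ∨ x = b ∨ x = c := by
  have hu := (h u).mpr (Or.inl rfl)
  have hv := (h v).mpr (Or.inr (Or.inl rfl))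
  have hw := (h w).mpr (Or.inr (Or.inr rfl))
  rcases (h a).mp ha with rfl | rfl | rfl <;> rcases (h b).mp hb with rfl | rfl | rfl
  · exact absurd rfl hab
  · exact ⟨w, hw, h2.symm, h3.symm, fun x hx => (h x).mp hx⟩
  · exact ⟨v, hv, h1.symm, h3, fun x hx => by have := (h x).mp hx; tauto⟩
  · exact ⟨w, hw, h3.symm, h2.symm, fun x hx => by have := (h x).mp hx; tauto⟩
  · exact absurd rfl hab
  · exact ⟨u, hu, h1, h2, fun x hx => by have := (h x).mp hx; tauto⟩
  · exact ⟨v, hv, h3, h1.symm, fun x hx => by have := (h x).mp hx; tauto⟩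
  · exact ⟨u, hu, h2, h1, fun x hx => by have := (h x).mp hx; tauto⟩
  · exact absurd rfl hab

/-- The incidences after the identification of `q` with `p`. -/
def inc1 (inc : P → L → Prop) (p q : P) : P → L → Prop := fun t i => inc t i ∨ (t = p ∧ inc q i)

/-- The incidences after the identification of `q` with `p` and of `b` with `d`. -/
def inc2 (inc : P → L → Prop) (p q : P) (b d : L) : P → L → Prop :=
  fun t i => inc t i ∨ (t = p ∧ inc q i) ∨ (i = d ∧ inc t b)

/-- A site for the first reduction. -/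
structure SiteR1 (inc : P → L → Prop) (p q r : P) (ℓ : L) : Prop where
  pq : p ≠ q
  pr : p ≠ r
  qr : q ≠ r
  pl : inc p ℓ
  ql : inc q ℓ
  rl : inc r ℓ
  nohex : ∀ b d s, inc p b → inc q d → inc s b → inc s d → b = ℓ ∨ d = ℓ

theorem core_R1 {inc : P → L → Prop} (hcfg : IsCfg inc) (hc : Conn inc) {p q r : P} {ℓ : L}
    (pq : p ≠ q) (pr : p ≠ r) (qr : q ≠ r) (pl : inc p ℓ) (ql : inc q ℓ) (rl : inc r ℓ)
    (X : Finset P) (Y : Finset L) (hX : X ⊆ univ.erase q) (hcore : Core (inc1 inc p q) X Y) :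
    (X = ∅ ∧ Y = ∅) ∨ ∃ (ZP : Finset P) (ZL : Finset L), r ∈ ZP ∧ p ∉ ZP ∧ q ∉ ZP ∧ ℓ ∉ ZL ∧
      (cutSet inc ZP ZL).card ≤ 2 := by
  classical
  have hqX : q ∉ X := fun h => (mem_erase.mp (hX h)).1 rfl
  -- points of X other than p
  have A1 : ∀ t ∈ X, t ≠ p → ∀ x, inc t x → x ∈ Y := by
    intro t ht htp x hx
    obtain ⟨i, hi, j, hj, k, hk, h1, h2, h3, hi', hj', hk'⟩ := hcore.1 t ht
    obtain ⟨a, b, c, -, -, -, habc⟩ := hcfg.pt t
    have conv : ∀ y, inc1 inc p q t y → inc t y := by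
      rintro y (h | h)
      · exact h
      · exact absurd h.1 htp
    rcases all_of_three (Q := inc t) (fun y hy => (habc y).mp hy) h1 h2 h3 (conv _ hi')
      (conv _ hj') (conv _ hk') x hx with rfl | rfl | rfl
    · exact hi
    · exact hj
    · exact hk
  -- lines of Y
  have A2 : ∀ x ∈ Y, ∀ t, t ≠ q → inc1 inc p q t x → t ∈ X := by
    intro x hx t htq htx
    obtain ⟨a, ha, b, hb, c, hcX, h1, h2, h3, ha', hb', hc'⟩ := hcore.2 x hx
    obtain ⟨u, v, w, -, -, -, huvw⟩ := hcfg.ln x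
    have hne : ∀ y ∈ X, y ≠ q := fun y hy h => hqX (h ▸ hy)
    have key : ∀ y, (y ≠ q ∧ inc1 inc p q y x) → y = (if u = q then p else u) ∨
        y = (if v = q then p else v) ∨ y = (if w = q then p else w) := by
      rintro y ⟨hy, h | ⟨rfl, h⟩⟩
      · rcases (huvw y).mp h with rfl | rfl | rfl
        · left; rw [if_neg hy]
        · right; left; rw [if_neg hy]
        · right; right; rw [if_neg hy]
      · rcases (huvw q).mp h with h | h | h
        · left; rw [if_pos h.symm]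
        · right; left; rw [if_pos h.symm]
        · right; right; rw [if_pos h.symm]
    rcases all_of_three (Q := fun y => y ≠ q ∧ inc1 inc p q y x) key h1 h2 h3 ⟨hne a ha, ha'⟩
      ⟨hne b hb, hb'⟩ ⟨hne c hcX, hc'⟩ t ⟨htq, htx⟩ with rfl | rfl | rfl
    · exact ha
    · exact hb
    · exact hcX
  have pline : ∀ t, inc t ℓ → t = p ∨ t = q ∨ t = r := by
    obtain ⟨u, v, w, -, -, -, huvw⟩ := hcfg.ln ℓ
    exact all_of_three (Q := fun t => inc t ℓ) (fun y hy => (huvw y).mp hy) pq pr qr pl ql rl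
  have A3 : ℓ ∉ Y := by
    intro hl
    obtain ⟨a, ha, b, hb, c, hcX, h1, h2, h3, ha', hb', hc'⟩ := hcore.2 ℓ hl
    have hne : ∀ y ∈ X, y ≠ q := fun y hy h => hqX (h ▸ hy)
    have two : ∀ y ∈ X, inc1 inc p q y ℓ → y = p ∨ y = r := by
      rintro y hy (h | h)
      · rcases pline y h with h | h | h
        · exact Or.inl h
        · exact absurd h (hne y hy)
        · exact Or.inr h
      · exact Or.inl h.1
    exact two_not_three h1 h2 h3 (two a ha ha') (two b hb hb') (two c hcX hc')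
  have A4 : r ∉ X := fun h => A3 (A1 r h pr.symm ℓ rl)
  by_cases hpX : p ∈ X
  · right
    refine ⟨univ.filter (fun t => t ≠ p ∧ t ≠ q ∧ t ∉ X), univ.filter (fun x => x ≠ ℓ ∧ x ∉ Y),
      by simp [pr.symm, qr.symm, A4], by simp, by simp, by simp, ?_⟩
    -- at most one leaving line at p or q
    obtain ⟨i, hi, j, hj, k, hk, h1, h2, h3, hi', hj', hk'⟩ := hcore.1 p hpX
    obtain ⟨b1, b2, b3, hb12, hb13, hb23, hb⟩ := hcfg.pt p
    obtain ⟨d1, d2, d3, hd12, hd13, hd23, hd⟩ := hcfg.pt q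
    have four : ∃ W : Finset L, W.card ≤ 4 ∧ ∀ y, y ≠ ℓ → (inc p y ∨ inc q y) → y ∈ W := by
      refine ⟨({b1, b2, b3} : Finset L).erase ℓ ∪ ({d1, d2, d3} : Finset L).erase ℓ, ?_, ?_⟩
      · refine (card_union_le _ _).trans ?_
        have e1 : (({b1, b2, b3} : Finset L).erase ℓ).card ≤ 2 := by
          rw [card_erase_of_mem (by simpa using (hb ℓ).mp pl)]
          have := Finset.card_le_three (a := b1) (b := b2) (c := b3)
          omega
        have e2 : (({d1, d2, d3} : Finset L).erase ℓ).card ≤ 2 := by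
          rw [card_erase_of_mem (by simpa using (hd ℓ).mp ql)]
          have := Finset.card_le_three (a := d1) (b := d2) (c := d3)
          omega
        omega
      · intro y hy h
        rw [mem_union, mem_erase, mem_erase]
        rcases h with h | h
        · left; exact ⟨hy, by simpa using (hb y).mp h⟩
        · right; exact ⟨hy, by simpa using (hd y).mp h⟩
    obtain ⟨W, hW, hWm⟩ := four
    have uniq : ∀ t x t' x', (t = p ∨ t = q) → inc t x → x ≠ ℓ → x ∉ Y →
        (t' = p ∨ t' = q) → inc t' x' → x' ≠ ℓ → x' ∉ Y → (t, x) = (t', x') := by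
      intro t x t' x' ht hx hxl hxY ht' hx' hxl' hxY'
      by_cases hxx : x = x'
      · subst hxx
        by_cases htt : t = t'
        · rw [htt]
        · exfalso
          apply hxl
          rcases ht with rfl | rfl <;> rcases ht' with rfl | rfl
          · exact absurd rfl htt
          · exact hcfg.lin t t' x ℓ pq hx hx' pl ql
          · exact hcfg.lin t' t x ℓ pq hx' hx pl ql
          · exact absurd rfl htt
      · exfalso
        have hsub : ({x, x', i, j, k} : Finset L) ⊆ W := by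
          intro y hy
          simp only [mem_insert, mem_singleton] at hy
          have conv : ∀ y, inc1 inc p q p y → (inc p y ∨ inc q y) := by
            rintro y (h | h)
            · exact Or.inl h
            · exact Or.inr h.2
          rcases hy with rfl | rfl | rfl | rfl | rfl
          · refine hWm _ hxl ?_
            rcases ht with rfl | rfl
            · exact Or.inl hx
            · exact Or.inr hx
          · refine hWm _ hxl' ?_
            rcases ht' with rfl | rfl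
            · exact Or.inl hx'
            · exact Or.inr hx'
          · exact hWm _ (fun h => A3 (h ▸ hi)) (conv _ hi')
          · exact hWm _ (fun h => A3 (h ▸ hj)) (conv _ hj')
          · exact hWm _ (fun h => A3 (h ▸ hk)) (conv _ hk')
        have hne : ∀ y ∈ Y, x ≠ y := fun y hy h => hxY (h ▸ hy)
        have hne' : ∀ y ∈ Y, x' ≠ y := fun y hy h => hxY' (h ▸ hy)
        have h5 : ({x, x', i, j, k} : Finset L).card = 5 := by
          rw [card_insert_of_notMem, card_insert_of_notMem, card_insert_of_notMem,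
            card_insert_of_notMem, card_singleton]
          · simpa using h3
          · simp [h1, h2]
          · simp [hne' i hi, hne' j hj, hne' k hk]
          · simp [hxx, hne i hi, hne j hj, hne k hk]
        have := card_le_card hsub
        omega
    obtain ⟨e0, he0⟩ : ∃ e0 : P × L, ∀ t x, (t = p ∨ t = q) → inc t x → x ≠ ℓ → x ∉ Y →
        (t, x) = e0 := by
      by_cases hex : ∃ t x, (t = p ∨ t = q) ∧ inc t x ∧ x ≠ ℓ ∧ x ∉ Y
      · obtain ⟨t', x', h1, h2, h3, h4⟩ := hex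
        exact ⟨(t', x'), fun t x a b c d => uniq t x t' x' a b c d h1 h2 h3 h4⟩
      · exact ⟨(p, ℓ), fun t x a b c d => absurd ⟨t, x, a, b, c, d⟩ hex⟩
    have hsub : cutSet inc (univ.filter (fun t => t ≠ p ∧ t ≠ q ∧ t ∉ X))
        (univ.filter (fun x => x ≠ ℓ ∧ x ∉ Y)) ⊆ {(r, ℓ), e0} := by
      rintro ⟨t, x⟩ he
      rw [mem_cutSet] at he
      simp only [mem_filter, mem_univ, true_and] at he
      obtain ⟨htx, hne⟩ := he
      rw [mem_insert, mem_singleton]
      by_cases ht : t ≠ p ∧ t ≠ q ∧ t ∉ X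
      · left
        have hx : ¬ (x ≠ ℓ ∧ x ∉ Y) := fun h => hne ⟨fun _ => h, fun _ => ht⟩
        have hxl : x = ℓ := by
          by_contra hxl
          have hxY : x ∈ Y := by
            by_contra hxY
            exact hx ⟨hxl, hxY⟩
          exact ht.2.2 (A2 x hxY t ht.2.1 (Or.inl htx))
        rw [hxl] at htx ⊢
        rcases pline t htx with h | h | h
        · exact absurd h ht.1
        · exact absurd h ht.2.1
        · rw [h]
      · right
        have hx : x ≠ ℓ ∧ x ∉ Y := by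
          by_contra hx
          exact hne ⟨fun h => absurd h ht, fun h => absurd h hx⟩
        refine he0 t x ?_ htx hx.1 hx.2
        by_contra hcon
        push Not at hcon
        have htX : t ∈ X := by
          by_contra h
          exact ht ⟨hcon.1, hcon.2, h⟩
        exact hx.2 (A1 t htX hcon.1 x htx)
    exact (card_le_card hsub).trans (card_le_two)
  · left
    rcases hc X Y (by
      intro t x htx
      constructor
      · intro ht
        exact A1 t ht (fun h => hpX (h ▸ ht)) x htx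
      · intro hx
        by_cases htq : t = q
        · subst htq
          exact absurd (A2 x hx p pq (Or.inr ⟨rfl, htx⟩)) hpX
        · exact A2 x hx t htq (Or.inl htx)) with h | h
    · exact h
    · exact absurd (by rw [h.2]; exact mem_univ _) A3

/-- A hexagon `ℓ, p, b, s, d, q` (`ℓ, b, d` lines). -/
structure Hex (inc : P → L → Prop) (p q s : P) (ℓ b d : L) : Prop where
  pq : p ≠ q
  sp : s ≠ p
  sq : s ≠ q
  bl : b ≠ ℓ
  dl : d ≠ ℓ
  bd : b ≠ d
  pl : inc p ℓ
  ql : inc q ℓ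
  pb : inc p b
  qd : inc q d
  sb : inc s b
  sd : inc s d

/-- A site for the second reduction: the hexagon is the only one through `p, ℓ, q` and the only
one through `b, s, d`. -/
structure SiteR2 (inc : P → L → Prop) (p q s : P) (ℓ b d : L) : Prop
    extends Hex inc p q s ℓ b d where
  one : ∀ b' d' s', inc p b' → inc q d' → inc s' b' → inc s' d' →
    b' = ℓ ∨ d' = ℓ ∨ (b' = b ∧ d' = d)
  two : ∀ p' q' ℓ', inc p' b → inc q' d → inc p' ℓ' → inc q' ℓ' →
    p' = s ∨ q' = s ∨ (p' = p ∧ q' = q)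

theorem core_R2 {inc : P → L → Prop} (hcfg : IsCfg inc) (hc : Conn inc) {p q s r : P}
    {ℓ b d h : L} (H : Hex inc p q s ℓ b d) (rp : r ≠ p) (rq : r ≠ q) (rl : inc r ℓ)
    (hb : h ≠ b) (hd : h ≠ d) (sh : inc s h)
    (X : Finset P) (Y : Finset L) (hX : X ⊆ univ.erase q) (hY : Y ⊆ univ.erase b)
    (hcore : Core (inc2 inc p q b d) X Y) :
    (X = ∅ ∧ Y = ∅) ∨ ∃ (ZP : Finset P) (ZL : Finset L), r ∈ ZP ∧ p ∉ ZP ∧ q ∉ ZP ∧ s ∉ ZP ∧
      ℓ ∉ ZL ∧ b ∉ ZL ∧ d ∉ ZL ∧ (cutSet inc ZP ZL).card ≤ 2 := by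
  classical
  have hqX : q ∉ X := fun h => (mem_erase.mp (hX h)).1 rfl
  have hbY : b ∉ Y := fun h => (mem_erase.mp (hY h)).1 rfl
  have rs : r ≠ s := by
    rintro rfl
    exact H.bl (hcfg.lin p r b ℓ rp.symm H.pb H.sb H.pl rl)
  have hl : h ≠ ℓ := by
    rintro rfl
    exact H.bl (hcfg.lin p s b h H.sp.symm H.pb H.sb H.pl sh)
  have hpd : ¬ inc p d := fun h => H.dl (hcfg.lin p q d ℓ H.pq h H.qd H.pl H.ql)
  have hqb : ¬ inc q b := fun h => H.bl (hcfg.lin p q b ℓ H.pq H.pb h H.pl H.ql)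
  -- points of X other than p
  have A1' : ∀ t ∈ X, t ≠ p → ∀ x, x ≠ b → inc2 inc p q b d t x → x ∈ Y := by
    intro t ht htp x hxb hx
    obtain ⟨i, hi, j, hj, k, hk, h1, h2, h3, hi', hj', hk'⟩ := hcore.1 t ht
    obtain ⟨u, v, w, -, -, -, huvw⟩ := hcfg.pt t
    have hne : ∀ y ∈ Y, y ≠ b := fun y hy h => hbY (h ▸ hy)
    have key : ∀ y, (y ≠ b ∧ inc2 inc p q b d t y) → y = (if u = b then d else u) ∨
        y = (if v = b then d else v) ∨ y = (if w = b then d else w) := by
      rintro y ⟨hy, h | ⟨h, -⟩ | ⟨rfl, h⟩⟩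
      · rcases (huvw y).mp h with rfl | rfl | rfl
        · left; rw [if_neg hy]
        · right; left; rw [if_neg hy]
        · right; right; rw [if_neg hy]
      · exact absurd h htp
      · rcases (huvw b).mp h with h | h | h
        · left; rw [if_pos h.symm]
        · right; left; rw [if_pos h.symm]
        · right; right; rw [if_pos h.symm]
    rcases all_of_three (Q := fun y => y ≠ b ∧ inc2 inc p q b d t y) key h1 h2 h3
      ⟨hne i hi, hi'⟩ ⟨hne j hj, hj'⟩ ⟨hne k hk, hk'⟩ x ⟨hxb, hx⟩ with rfl | rfl | rfl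
    · exact hi
    · exact hj
    · exact hk
  have A1 : ∀ t ∈ X, t ≠ p → ∀ x, inc t x → (x ≠ b → x ∈ Y) ∧ (x = b → d ∈ Y) := by
    intro t ht htp x hx
    refine ⟨fun hxb => A1' t ht htp x hxb (Or.inl hx), fun hxb => ?_⟩
    rw [hxb] at hx
    exact A1' t ht htp d H.bd.symm (Or.inr (Or.inr ⟨rfl, hx⟩))
  -- lines of Y other than d
  have A2' : ∀ x ∈ Y, x ≠ d → ∀ t, t ≠ q → inc2 inc p q b d t x → t ∈ X := by
    intro x hx hxd t htq htx
    obtain ⟨i, hi, j, hj, k, hk, h1, h2, h3, hi', hj', hk'⟩ := hcore.2 x hx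
    obtain ⟨u, v, w, -, -, -, huvw⟩ := hcfg.ln x
    have hne : ∀ y ∈ X, y ≠ q := fun y hy h => hqX (h ▸ hy)
    have key : ∀ y, (y ≠ q ∧ inc2 inc p q b d y x) → y = (if u = q then p else u) ∨
        y = (if v = q then p else v) ∨ y = (if w = q then p else w) := by
      rintro y ⟨hy, h | ⟨rfl, h⟩ | ⟨h, -⟩⟩
      · rcases (huvw y).mp h with rfl | rfl | rfl
        · left; rw [if_neg hy]
        · right; left; rw [if_neg hy]
        · right; right; rw [if_neg hy]
      · rcases (huvw q).mp h with h | h | h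
        · left; rw [if_pos h.symm]
        · right; left; rw [if_pos h.symm]
        · right; right; rw [if_pos h.symm]
      · exact absurd h hxd
    rcases all_of_three (Q := fun y => y ≠ q ∧ inc2 inc p q b d y x) key h1 h2 h3
      ⟨hne i hi, hi'⟩ ⟨hne j hj, hj'⟩ ⟨hne k hk, hk'⟩ t ⟨htq, htx⟩ with rfl | rfl | rfl
    · exact hi
    · exact hj
    · exact hk
  have A2 : ∀ x ∈ Y, x ≠ d → ∀ t, inc t x → (t ≠ q → t ∈ X) ∧ (t = q → p ∈ X) := by
    intro x hx hxd t htx
    refine ⟨fun htq => A2' x hx hxd t htq (Or.inl htx), fun htq => ?_⟩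
    rw [htq] at htx
    exact A2' x hx hxd p H.pq (Or.inr (Or.inl ⟨rfl, htx⟩))
  have pline : ∀ t, inc t ℓ → t = p ∨ t = q ∨ t = r := by
    obtain ⟨u, v, w, -, -, -, huvw⟩ := hcfg.ln ℓ
    exact all_of_three (Q := fun t => inc t ℓ) (fun y hy => (huvw y).mp hy) H.pq rp.symm rq.symm
      H.pl H.ql rl
  have sline : ∀ x, inc s x → x = b ∨ x = d ∨ x = h := by
    obtain ⟨u, v, w, -, -, -, huvw⟩ := hcfg.pt s
    exact all_of_three (Q := fun x => inc s x) (fun y hy => (huvw y).mp hy) H.bd hb.symm hd.symm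
      H.sb H.sd sh
  have A3 : ℓ ∉ Y := by
    intro hlY
    obtain ⟨i, hi, j, hj, k, hk, h1, h2, h3, hi', hj', hk'⟩ := hcore.2 ℓ hlY
    have two : ∀ y ∈ X, inc2 inc p q b d y ℓ → y = p ∨ y = r := by
      rintro y hy (h | h | h)
      · rcases pline y h with h | h | h
        · exact Or.inl h
        · exact absurd (h ▸ hy) hqX
        · exact Or.inr h
      · exact Or.inl h.1
      · exact absurd h.1 H.dl.symm
    exact two_not_three h1 h2 h3 (two i hi hi') (two j hj hj') (two k hk hk')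
  have A3' : s ∉ X := by
    intro hsX
    obtain ⟨i, hi, j, hj, k, hk, h1, h2, h3, hi', hj', hk'⟩ := hcore.1 s hsX
    have two : ∀ y ∈ Y, inc2 inc p q b d s y → y = d ∨ y = h := by
      rintro y hy (h | h | h)
      · rcases sline y h with h | h | h
        · exact absurd (h ▸ hy) hbY
        · exact Or.inl h
        · exact Or.inr h
      · exact absurd h.1 H.sp
      · exact Or.inl h.1
    exact two_not_three h1 h2 h3 (two i hi hi') (two j hj hj') (two k hk hk')
  have A4 : r ∉ X := fun h => A3 ((A1 r h rp ℓ rl).1 H.bl.symm)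
  have A4' : h ∉ Y := fun hh => A3' ((A2 h hh hd s sh).1 H.sq)
  -- p and d together
  have A5 : p ∈ X → d ∈ Y ∧ (∀ x, inc p x → x ≠ ℓ → x ≠ b → x ∈ Y) ∧
      (∀ x, inc q x → x ≠ ℓ → x ≠ d → x ∈ Y) := by
    intro hpX
    obtain ⟨i, hi, j, hj, k, hk, h1, h2, h3, hi', hj', hk'⟩ := hcore.1 p hpX
    obtain ⟨c, hc1, hc2, hc3, hc4⟩ : ∃ c, inc p c ∧ c ≠ ℓ ∧ c ≠ b ∧
        ∀ x, inc p x → x = ℓ ∨ x = b ∨ x = c := by
      obtain ⟨u, v, w, h1, h2, h3, huvw⟩ := hcfg.pt p
      exact third_elt h1 h2 h3 huvw H.pl H.pb H.bl.symm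
    obtain ⟨e, he1, he2, he3, he4⟩ : ∃ e, inc q e ∧ e ≠ ℓ ∧ e ≠ d ∧
        ∀ x, inc q x → x = ℓ ∨ x = d ∨ x = e := by
      obtain ⟨u, v, w, h1, h2, h3, huvw⟩ := hcfg.pt q
      exact third_elt h1 h2 h3 huvw H.ql H.qd H.dl.symm
    have key : ∀ y, (y ∈ Y ∧ inc2 inc p q b d p y) → y = c ∨ y = d ∨ y = e := by
      rintro y ⟨hy, h | ⟨-, h⟩ | ⟨h, -⟩⟩
      · rcases hc4 y h with h | h | h
        · exact absurd (h ▸ hy) A3
        · exact absurd (h ▸ hy) hbY
        · exact Or.inl h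
      · rcases he4 y h with h | h | h
        · exact absurd (h ▸ hy) A3
        · exact Or.inr (Or.inl h)
        · exact Or.inr (Or.inr h)
      · exact Or.inr (Or.inl h)
    have all : c ∈ Y ∧ d ∈ Y ∧ e ∈ Y := three_mem hi hj hk h1 h2 h3 (key i ⟨hi, hi'⟩)
      (key j ⟨hj, hj'⟩) (key k ⟨hk, hk'⟩)
    refine ⟨all.2.1, fun x hx hxl hxb => ?_, fun x hx hxl hxd => ?_⟩
    · rcases hc4 x hx with h | h | h
      · exact absurd h hxl
      · exact absurd h hxb
      · rw [h]; exact all.1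
    · rcases he4 x hx with h | h | h
      · exact absurd h hxl
      · exact absurd h hxd
      · rw [h]; exact all.2.2
  have A6 : d ∈ Y → p ∈ X ∧ (∀ t, inc t b → t ≠ p → t ≠ s → t ∈ X) ∧
      (∀ t, inc t d → t ≠ q → t ≠ s → t ∈ X) := by
    intro hdY
    obtain ⟨i, hi, j, hj, k, hk, h1, h2, h3, hi', hj', hk'⟩ := hcore.2 d hdY
    obtain ⟨c, hc1, hc2, hc3, hc4⟩ : ∃ c, inc c b ∧ c ≠ p ∧ c ≠ s ∧
        ∀ x, inc x b → x = p ∨ x = s ∨ x = c := by
      obtain ⟨u, v, w, h1, h2, h3, huvw⟩ := hcfg.ln b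
      exact third_elt h1 h2 h3 huvw H.pb H.sb H.sp.symm
    obtain ⟨e, he1, he2, he3, he4⟩ : ∃ e, inc e d ∧ e ≠ q ∧ e ≠ s ∧
        ∀ x, inc x d → x = q ∨ x = s ∨ x = e := by
      obtain ⟨u, v, w, h1, h2, h3, huvw⟩ := hcfg.ln d
      exact third_elt h1 h2 h3 huvw H.qd H.sd H.sq.symm
    have key : ∀ y, (y ∈ X ∧ inc2 inc p q b d y d) → y = c ∨ y = p ∨ y = e := by
      rintro y ⟨hy, h | ⟨h, -⟩ | ⟨-, h⟩⟩
      · rcases he4 y h with h | h | h
        · exact absurd (h ▸ hy) hqX
        · exact absurd (h ▸ hy) A3'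
        · exact Or.inr (Or.inr h)
      · exact Or.inr (Or.inl h)
      · rcases hc4 y h with h | h | h
        · exact Or.inr (Or.inl h)
        · exact absurd (h ▸ hy) A3'
        · exact Or.inl h
    have all : c ∈ X ∧ p ∈ X ∧ e ∈ X := three_mem hi hj hk h1 h2 h3 (key i ⟨hi, hi'⟩)
      (key j ⟨hj, hj'⟩) (key k ⟨hk, hk'⟩)
    refine ⟨all.2.1, fun x hx hxl hxb => ?_, fun x hx hxl hxd => ?_⟩
    · rcases hc4 x hx with h | h | h
      · exact absurd h hxl
      · exact absurd h hxb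
      · rw [h]; exact all.1
    · rcases he4 x hx with h | h | h
      · exact absurd h hxl
      · exact absurd h hxd
      · rw [h]; exact all.2.2
  by_cases hpX : p ∈ X
  · right
    obtain ⟨hdY, hcY, heY⟩ := A5 hpX
    obtain ⟨-, hb'X, hd'X⟩ := A6 hdY
    refine ⟨univ.filter (fun t => t ≠ p ∧ t ≠ q ∧ t ≠ s ∧ t ∉ X),
      univ.filter (fun x => x ≠ ℓ ∧ x ≠ b ∧ x ≠ d ∧ x ∉ Y),
      by simp [rp, rq, rs, A4], by simp, by simp, by simp, by simp, by simp, by simp, ?_⟩
    have hsub : cutSet inc (univ.filter (fun t => t ≠ p ∧ t ≠ q ∧ t ≠ s ∧ t ∉ X))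
        (univ.filter (fun x => x ≠ ℓ ∧ x ≠ b ∧ x ≠ d ∧ x ∉ Y)) ⊆ {(r, ℓ), (s, h)} := by
      rintro ⟨t, x⟩ he
      rw [mem_cutSet] at he
      simp only [mem_filter, mem_univ, true_and] at he
      obtain ⟨htx, hne⟩ := he
      rw [mem_insert, mem_singleton]
      by_cases ht : t ≠ p ∧ t ≠ q ∧ t ≠ s ∧ t ∉ X
      · left
        have hx : ¬ (x ≠ ℓ ∧ x ≠ b ∧ x ≠ d ∧ x ∉ Y) := fun h => hne ⟨fun _ => h, fun _ => ht⟩
        have hxl : x = ℓ := by
          by_contra hxl
          by_cases hxb : x = b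
          · rw [hxb] at htx
            exact ht.2.2.2 (hb'X t htx ht.1 ht.2.2.1)
          · by_cases hxd : x = d
            · rw [hxd] at htx
              exact ht.2.2.2 (hd'X t htx ht.2.1 ht.2.2.1)
            · have hxY : x ∈ Y := by
                by_contra hxY
                exact hx ⟨hxl, hxb, hxd, hxY⟩
              exact ht.2.2.2 ((A2 x hxY hxd t htx).1 ht.2.1)
        rw [hxl] at htx ⊢
        rcases pline t htx with h | h | h
        · exact absurd h ht.1
        · exact absurd h ht.2.1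
        · rw [h]
      · right
        have hx : x ≠ ℓ ∧ x ≠ b ∧ x ≠ d ∧ x ∉ Y := by
          by_contra hx
          exact hne ⟨fun h => absurd h ht, fun h => absurd h hx⟩
        have hts : t = s := by
          by_contra hts
          by_cases htp : t = p
          · rw [htp] at htx
            exact hx.2.2.2 (hcY x htx hx.1 hx.2.1)
          · by_cases htq : t = q
            · rw [htq] at htx
              exact hx.2.2.2 (heY x htx hx.1 hx.2.2.1)
            · have htX : t ∈ X := by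
                by_contra h
                exact ht ⟨htp, htq, hts, h⟩
              exact hx.2.2.2 ((A1 t htX htp x htx).1 hx.2.1)
        rw [hts] at htx ⊢
        rcases sline x htx with h | h | h
        · exact absurd h hx.2.1
        · exact absurd h hx.2.2.1
        · rw [h]
    exact (card_le_card hsub).trans (card_le_two)
  · left
    have hdY : d ∉ Y := fun h => hpX (A6 h).1
    rcases hc X Y (by
      intro t x htx
      constructor
      · intro ht
        have := A1 t ht (fun h => hpX (h ▸ ht)) x htx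
        by_cases hxb : x = b
        · exact absurd (this.2 hxb) hdY
        · exact this.1 hxb
      · intro hx
        have := A2 x hx (fun h => hdY (h ▸ hx)) t htx
        by_cases htq : t = q
        · exact absurd (this.2 htq) hpX
        · exact this.1 htq) with h | h
    · exact h
    · exact absurd (by rw [h.2]; exact mem_univ _) A3

omit [DecidableEq P] [DecidableEq L] [Fintype P] [Fintype L] in
theorem lin_R1 {inc : P → L → Prop} (hcfg : IsCfg inc) {p q r : P} {ℓ : L}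
    (S : SiteR1 inc p q r ℓ) (u v : P) (i j : L) (hu : u ≠ q) (hv : v ≠ q) (huv : u ≠ v)
    (h1 : inc1 inc p q u i) (h2 : inc1 inc p q v i) (h3 : inc1 inc p q u j)
    (h4 : inc1 inc p q v j) : i = j := by
  have main : ∀ v : P, v ≠ q → v ≠ p → inc v i → inc v j → (inc p i ∨ inc q i) →
      (inc p j ∨ inc q j) → i = j := by
    intro v hvq hvp hvi hvj hi hj
    rcases hi with hi | hi <;> rcases hj with hj | hj
    · exact hcfg.lin p v i j hvp.symm hi hvi hj hvj
    · rcases S.nohex i j v hi hj hvi hvj with h | h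
      · subst h; exact hcfg.lin q v i j hvq.symm S.ql hvi hj hvj
      · subst h; exact hcfg.lin p v i j hvp.symm hi hvi S.pl hvj
    · rcases S.nohex j i v hj hi hvj hvi with h | h
      · subst h; exact hcfg.lin q v i j hvq.symm hi hvi S.ql hvj
      · subst h; exact hcfg.lin p v i j hvp.symm S.pl hvi hj hvj
    · exact hcfg.lin q v i j hvq.symm hi hvi hj hvj
  have conv : ∀ t k, t ≠ p → inc1 inc p q t k → inc t k := by
    rintro t k ht (h | h)
    · exact h
    · exact absurd h.1 ht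
  have convp : ∀ k, inc1 inc p q p k → (inc p k ∨ inc q k) := by
    rintro k (h | h)
    · exact Or.inl h
    · exact Or.inr h.2
  by_cases hup : u = p
  · subst hup
    have hvp : v ≠ u := huv.symm
    exact main v hv hvp (conv v i hvp h2) (conv v j hvp h4) (convp i h1) (convp j h3)
  · by_cases hvp : v = p
    · subst hvp
      exact main u hu hup (conv u i hup h1) (conv u j hup h3) (convp i h2) (convp j h4)
    · exact hcfg.lin u v i j huv (conv u i hup h1) (conv v i hvp h2) (conv u j hup h3)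
        (conv v j hvp h4)

theorem realizable_site1 {inc : P → L → Prop} (hcfg : IsCfg inc) {p q r : P} {ℓ : L}
    (S : SiteR1 inc p q r ℓ)
    (hno : ∀ X ⊆ univ.erase q, ∀ Y ⊆ (univ : Finset L), Core (inc1 inc p q) X Y →
      X = ∅ ∧ Y = ∅) : Realizable inc := by
  have hcon := constructible_of_no_core (inc1 inc p q) _ (univ.erase q) univ rfl hno
  obtain ⟨R⟩ := hcon.model (by
    intro u hu v hv i _ j _ huv h1 h2 h3 h4
    exact lin_R1 hcfg S u v i j (mem_erase.mp hu).1 (mem_erase.mp hv).1 huv h1 h2 h3 h4)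
  exact realizable_R1 inc p q ℓ S.pq S.pl S.ql
    (fun i h1 h2 => hcfg.lin p q i ℓ S.pq h1 h2 S.pl S.ql) R

omit [DecidableEq P] [DecidableEq L] [Fintype P] [Fintype L] in
theorem lin_R2 {inc : P → L → Prop} (hcfg : IsCfg inc) {p q s : P} {ℓ b d : L}
    (S : SiteR2 inc p q s ℓ b d) (u v : P) (i j : L) (hu : u ≠ q) (hv : v ≠ q) (huv : u ≠ v)
    (hib : i ≠ b) (hjb : j ≠ b)
    (h1 : inc2 inc p q b d u i) (h2 : inc2 inc p q b d v i) (h3 : inc2 inc p q b d u j)
    (h4 : inc2 inc p q b d v j) : i = j := by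
  by_contra hij
  -- u = p, i = d
  have case_d : ∀ (v : P) (j : L), v ≠ q → v ≠ p → j ≠ b → j ≠ d → (inc v d ∨ inc v b) →
      (inc p j ∨ inc q j) → inc v j → False := by
    intro v j hvq hvp hjb hjd hvd hj hvj
    rcases hvd with hvd | hvb <;> rcases hj with hj | hj
    · rcases S.one j d v hj S.qd hvj hvd with h | h | h
      · subst h
        exact S.dl (hcfg.lin q v d j hvq.symm S.qd hvd S.ql hvj)
      · exact S.dl h
      · exact hjb h.1
    · exact hjd (hcfg.lin q v j d hvq.symm hj hvj S.qd hvd)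
    · exact hjb (hcfg.lin p v j b hvp.symm hj hvj S.pb hvb)
    · rcases S.one b j v S.pb hj hvb hvj with h | h | h
      · exact S.bl h
      · subst h
        exact S.bl (hcfg.lin p v b j hvp.symm S.pb hvb S.pl hvj)
      · exact hjd h.2
  -- u = p, i, j ≠ d
  have case_p : ∀ (v : P) (i j : L), v ≠ q → v ≠ p → i ≠ j → i ≠ b → j ≠ b → i ≠ d → j ≠ d →
      inc v i → inc v j → (inc p i ∨ inc q i) → (inc p j ∨ inc q j) → False := by
    intro v i j hvq hvp hij hib hjb hid hjd hvi hvj hi hj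
    rcases hi with hi | hi <;> rcases hj with hj | hj
    · exact hij (hcfg.lin p v i j hvp.symm hi hvi hj hvj)
    · rcases S.one i j v hi hj hvi hvj with h | h | h
      · subst h; exact hij (hcfg.lin q v i j hvq.symm S.ql hvi hj hvj)
      · subst h; exact hij (hcfg.lin p v i j hvp.symm hi hvi S.pl hvj)
      · exact hib h.1
    · rcases S.one j i v hj hi hvj hvi with h | h | h
      · subst h; exact hij (hcfg.lin q v i j hvq.symm hi hvi S.ql hvj)
      · subst h; exact hij (hcfg.lin p v i j hvp.symm S.pl hvi hj hvj)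
      · exact hjb h.1
    · exact hij (hcfg.lin q v i j hvq.symm hi hvi hj hvj)
  -- u, v ≠ p, i = d
  have case_l : ∀ (u v : P) (j : L), u ≠ v → u ≠ p → v ≠ p → u ≠ q → v ≠ q → j ≠ b → j ≠ d →
      (inc u d ∨ inc u b) → (inc v d ∨ inc v b) → inc u j → inc v j → False := by
    intro u v j huv hup hvp huq hvq hjb hjd hud hvd huj hvj
    rcases hud with hud | hub <;> rcases hvd with hvd | hvb
    · exact hjd (hcfg.lin u v j d huv huj hvj hud hvd)
    · rcases S.two v u j hvb hud hvj huj with h | h | h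
      · subst h; exact hjd (hcfg.lin u v j d huv huj hvj hud S.sd)
      · subst h; exact hjb (hcfg.lin u v j b huv huj hvj S.sb hvb)
      · exact hvp h.1
    · rcases S.two u v j hub hvd huj hvj with h | h | h
      · subst h; exact hjd (hcfg.lin u v j d huv huj hvj S.sd hvd)
      · subst h; exact hjb (hcfg.lin u v j b huv huj hvj hub S.sb)
      · exact hup h.1
    · exact hjb (hcfg.lin u v j b huv huj hvj hub hvb)
  have c1 : ∀ t k, t ≠ p → k ≠ d → inc2 inc p q b d t k → inc t k := by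
    rintro t k ht hk (h | h | h)
    · exact h
    · exact absurd h.1 ht
    · exact absurd h.1 hk
  have c2 : ∀ k, k ≠ d → inc2 inc p q b d p k → (inc p k ∨ inc q k) := by
    rintro k hk (h | h | h)
    · exact Or.inl h
    · exact Or.inr h.2
    · exact absurd h.1 hk
  have c3 : ∀ t, t ≠ p → inc2 inc p q b d t d → (inc t d ∨ inc t b) := by
    rintro t ht (h | h | h)
    · exact Or.inl h
    · exact absurd h.1 ht
    · exact Or.inr h.2
  have main : ∀ (u v : P) (i j : L), u ≠ q → v ≠ q → u ≠ v → i ≠ b → j ≠ b → i ≠ j → v ≠ p →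
      inc2 inc p q b d u i → inc2 inc p q b d v i → inc2 inc p q b d u j →
      inc2 inc p q b d v j → False := by
    intro u v i j hu hv huv hib hjb hij hvp h1 h2 h3 h4
    by_cases hup : u = p
    · subst hup
      by_cases hid : i = d
      · subst hid
        have hjd : j ≠ i := fun h => hij h.symm
        exact case_d v j hv hvp hjb hjd (c3 v hvp h2) (c2 j hjd h3) (c1 v j hvp hjd h4)
      · by_cases hjd : j = d
        · subst hjd
          exact case_d v i hv hvp hib hid (c3 v hvp h4) (c2 i hid h1) (c1 v i hvp hid h2)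
        · exact case_p v i j hv hvp hij hib hjb hid hjd (c1 v i hvp hid h2) (c1 v j hvp hjd h4)
            (c2 i hid h1) (c2 j hjd h3)
    · by_cases hid : i = d
      · subst hid
        have hjd : j ≠ i := fun h => hij h.symm
        exact case_l u v j huv hup hvp hu hv hjb hjd (c3 u hup h1) (c3 v hvp h2)
          (c1 u j hup hjd h3) (c1 v j hvp hjd h4)
      · by_cases hjd : j = d
        · subst hjd
          exact case_l u v i huv hup hvp hu hv hib hid (c3 u hup h3) (c3 v hvp h4)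
            (c1 u i hup hid h1) (c1 v i hvp hid h2)
        · exact hij (hcfg.lin u v i j huv (c1 u i hup hid h1) (c1 v i hvp hid h2)
            (c1 u j hup hjd h3) (c1 v j hvp hjd h4))
  by_cases hvp : v = p
  · exact main v u i j hv hu huv.symm hib hjb hij (fun h => huv (h.trans hvp.symm)) h2 h1 h4 h3
  · exact main u v i j hu hv huv hib hjb hij hvp h1 h2 h3 h4

theorem realizable_site2 {inc : P → L → Prop} (hcfg : IsCfg inc) {p q s : P} {ℓ b d : L}
    (S : SiteR2 inc p q s ℓ b d)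
    (hno : ∀ X ⊆ univ.erase q, ∀ Y ⊆ univ.erase b, Core (inc2 inc p q b d) X Y →
      X = ∅ ∧ Y = ∅) : Realizable inc := by
  have hcon := constructible_of_no_core (inc2 inc p q b d) _ (univ.erase q) (univ.erase b) rfl hno
  obtain ⟨R⟩ := hcon.model (by
    intro u hu v hv i hi j hj huv h1 h2 h3 h4
    exact lin_R2 hcfg S u v i j (mem_erase.mp hu).1 (mem_erase.mp hv).1 huv
      (mem_erase.mp hi).1 (mem_erase.mp hj).1 h1 h2 h3 h4)
  exact realizable_R2 inc p q s ℓ b d S.pq S.sp S.sq S.bl S.dl S.bd S.pl S.ql S.pb S.qd S.sb S.sd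
    (fun i h1 h2 => hcfg.lin p q i ℓ S.pq h1 h2 S.pl S.ql)
    (fun t h1 h2 => by
      by_contra hts
      exact S.bd (hcfg.lin t s b d hts h1 S.sb h2 S.sd)) R

theorem two_le_cut {inc : P → L → Prop} (hcfg : IsCfg inc) (hc : Conn inc) (X : Finset P)
    (Y : Finset L) (hne : X.Nonempty ∨ Y.Nonempty) (hproper : X ≠ univ ∨ Y ≠ univ) :
    2 ≤ (cutSet inc X Y).card := by
  by_contra h
  obtain ⟨p1, l2, p2, l1, h1, h2, h3, h4, h5, h6, -, -⟩ :=
    cut_structure hcfg hc X Y (by omega) hne hproper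
  have e1 : (p1, l2) ∈ cutSet inc X Y := (mem_cutSet _ _ _ _).mpr ⟨h3, fun h => h1 (h.mpr h2)⟩
  have e2 : (p2, l1) ∈ cutSet inc X Y := (mem_cutSet _ _ _ _).mpr ⟨h6, fun h => h5 (h.mp h4)⟩
  have hne : (p1, l2) ≠ (p2, l1) := by
    intro h
    rw [Prod.mk.injEq] at h
    exact h1 (h.1 ▸ h4)
  have := Finset.one_lt_card.mpr ⟨_, e1, _, e2, hne⟩
  omega

/-- Two points other than a given one on a line. -/
theorem two_others {α : Type*} {Q : α → Prop} {u v w a : α} (h1 : u ≠ v) (h2 : u ≠ w)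
    (h3 : v ≠ w) (h : ∀ x, Q x ↔ x = u ∨ x = v ∨ x = w) (ha : Q a) :
    ∃ x y, Q x ∧ Q y ∧ x ≠ a ∧ y ≠ a ∧ x ≠ y := by
  have hu := (h u).mpr (Or.inl rfl)
  have hv := (h v).mpr (Or.inr (Or.inl rfl))
  have hw := (h w).mpr (Or.inr (Or.inr rfl))
  rcases (h a).mp ha with rfl | rfl | rfl
  · exact ⟨v, w, hv, hw, h1.symm, h2.symm, h3⟩
  · exact ⟨u, w, hu, hw, h1, h3.symm, h2⟩
  · exact ⟨u, v, hu, hv, h2, h3, h1⟩

/-- A cut of two incident pairs gives a realization. -/
theorem realizable_of_cut {inc : P → L → Prop} (hcfg : IsCfg inc) (hc : Conn inc)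
    (hex : ∃ (X : Finset P) (Y : Finset L), (X.Nonempty ∨ Y.Nonempty) ∧
      (X ≠ univ ∨ Y ≠ univ) ∧ (cutSet inc X Y).card ≤ 2) : Realizable inc := by
  classical
  -- a smallest side
  obtain ⟨X, Y, hne, hproper, h2, hmin⟩ : ∃ (X : Finset P) (Y : Finset L),
      (X.Nonempty ∨ Y.Nonempty) ∧ (X ≠ univ ∨ Y ≠ univ) ∧ (cutSet inc X Y).card ≤ 2 ∧
      ∀ (X' : Finset P) (Y' : Finset L), (X'.Nonempty ∨ Y'.Nonempty) →
        (X' ≠ univ ∨ Y' ≠ univ) → (cutSet inc X' Y').card ≤ 2 →
        X.card + Y.card ≤ X'.card + Y'.card := by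
    obtain ⟨X0, Y0, h1, h2, h3⟩ := hex
    obtain ⟨⟨X, Y⟩, hm, hmin⟩ := Finset.exists_min_image
      ((univ : Finset (Finset P × Finset L)).filter (fun e => (e.1.Nonempty ∨ e.2.Nonempty) ∧
        (e.1 ≠ univ ∨ e.2 ≠ univ) ∧ (cutSet inc e.1 e.2).card ≤ 2))
      (fun e => e.1.card + e.2.card) ⟨(X0, Y0), by simp only [mem_filter, mem_univ, true_and]; exact ⟨h1, h2, h3⟩⟩
    simp only [mem_filter, mem_univ, true_and] at hm hmin
    exact ⟨X, Y, hm.1, hm.2.1, hm.2.2, fun X' Y' a b c => hmin (X', Y') ⟨a, b, c⟩⟩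
  obtain ⟨p1, l2, p2, l1, hp1, hl2, h12, hp2, hl1, h21, m1, m2⟩ :=
    cut_structure hcfg hc X Y h2 hne hproper
  -- a set with a small cut that meets (X, Y) properly does not exist
  have contra : ∀ (ZP : Finset P) (ZL : Finset L), (cutSet inc ZP ZL).card ≤ 2 → ∀ y ∈ X, y ∈ ZP →
      p1 ∉ ZP → l2 ∉ ZL → False := by
    intro ZP ZL hZ y hyX hyZ hpZ hlZ
    have hsub := cut_submodular inc ZP X ZL Y
    have hu : 2 ≤ (cutSet inc (ZP ∪ X) (ZL ∪ Y)).card := by
      apply two_le_cut hcfg hc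
      · exact Or.inl ⟨y, mem_union_left _ hyZ⟩
      · left
        intro h
        have : p1 ∈ ZP ∪ X := by rw [h]; exact mem_univ _
        rcases mem_union.mp this with h | h
        · exact hpZ h
        · exact hp1 h
    have hi : (cutSet inc (ZP ∩ X) (ZL ∩ Y)).card ≤ 2 := by omega
    have hm := hmin (ZP ∩ X) (ZL ∩ Y) (Or.inl ⟨y, mem_inter.mpr ⟨hyZ, hyX⟩⟩) (by
      left
      intro h
      have : p1 ∈ ZP ∩ X := by rw [h]; exact mem_univ _
      exact hpZ (mem_inter.mp this).1) hi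
    have c1 : (ZP ∩ X).card ≤ X.card := card_le_card inter_subset_right
    have c2 : (ZL ∩ Y).card < Y.card := by
      apply card_lt_card
      rw [ssubset_iff_of_subset inter_subset_right]
      exact ⟨l2, hl2, fun h => hlZ (mem_inter.mp h).1⟩
    omega
  obtain ⟨u, v, w, e1, e2, e3, huvw⟩ := hcfg.ln l2
  obtain ⟨x, y, hx, hy, hxp, hyp, hxy⟩ := two_others e1 e2 e3 huvw h12
  have hxX : x ∈ X := by
    by_contra h
    exact hxp (m1 x l2 hx h hl2).1
  have hyX : y ∈ X := by
    by_contra h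
    exact hyp (m1 y l2 hy h hl2).1
  have no1 : ∀ x y : P, x ≠ p1 → y ≠ p1 → x ≠ y → inc x l2 → inc y l2 → y ∈ X →
      ∀ X' ⊆ univ.erase x, ∀ Y' ⊆ (univ : Finset L), Core (inc1 inc p1 x) X' Y' →
        X' = ∅ ∧ Y' = ∅ := by
    intro x y hxp hyp hxy hx hy hyX X' hX' Y' _ hcore
    rcases core_R1 hcfg hc hxp.symm hyp.symm hxy h12 hx hy X' Y' hX' hcore with h | h
    · exact h
    · obtain ⟨ZP, ZL, z1, z2, z3, z4, z5⟩ := h
      exact absurd (contra ZP ZL z5 y hyX z1 z2 z4) id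
  -- the structure of hexagons through p1, l2, x
  have hexa : ∀ x, x ∈ X → inc x l2 → ∀ b d s, inc p1 b → inc x d → inc s b → inc s d →
      b ≠ l2 → d ≠ l2 → (x = p2) ∨ (s = p2 ∧ b = l1 ∧ d ∈ Y) := by
    intro x hxX hx b d s hpb hxd hsb hsd hbl hdl
    by_cases hdY : d ∈ Y
    · right
      have hsX : s ∈ X := by
        by_contra h
        exact hdl (m1 s d hsd h hdY).2
      have hbY : b ∉ Y := fun h => hbl (m1 p1 b hpb hp1 h).2
      have := m2 s b hsb hsX hbY
      exact ⟨this.1, this.2, hdY⟩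
    · left
      exact (m2 x d hxd hxX hdY).1
  by_cases hs1 : ∀ b d s, inc p1 b → inc x d → inc s b → inc s d → b = l2 ∨ d = l2
  · exact realizable_site1 hcfg (r := y) ⟨hxp.symm, hyp.symm, hxy, h12, hx, hy, hs1⟩
      (no1 x y hxp hyp hxy hx hy hyX)
  by_cases hs2 : ∀ b d s, inc p1 b → inc y d → inc s b → inc s d → b = l2 ∨ d = l2
  · exact realizable_site1 hcfg (r := x) ⟨hyp.symm, hxp.symm, hxy.symm, h12, hy, hx, hs2⟩
      (no1 y x hyp hxp hxy.symm hy hx hxX)
  push Not at hs1 hs2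
  obtain ⟨b, d, s, pb, xd, sb, sd, bl, dl⟩ := hs1
  obtain ⟨b', d', s', pb', yd', sb', sd', bl', dl'⟩ := hs2
  have hA := hexa x hxX hx b d s pb xd sb sd bl dl
  have hB := hexa y hyX hy b' d' s' pb' yd' sb' sd' bl' dl'
  -- neither x nor y is p2
  have hxne : x ≠ p2 := by
    rintro rfl
    rcases hB with h | ⟨h1, h2, h3⟩
    · exact hxy h.symm
    · subst h1
      exact dl' (hcfg.lin s' y d' l2 hxy sd' yd' hx hy)
  have hyne : y ≠ p2 := by
    rintro rfl
    rcases hA with h | ⟨h1, h2, h3⟩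
    · exact hxy h
    · subst h1
      exact dl (hcfg.lin x s d l2 hxy xd sd hx hy)
  obtain ⟨hs, hb, hdY⟩ := hA.resolve_left hxne
  obtain ⟨hs', hb', hdY'⟩ := hB.resolve_left hyne
  subst hs hb
  -- now s = p2, b = l1, d joins x and s; d' joins y and s
  subst hs'
  have hsp : s' ≠ p1 := fun h => hp1 (h ▸ hp2)
  have hdd : d' ≠ d := by
    rintro rfl
    exact dl (hcfg.lin x y d' l2 hxy xd yd' hx hy)
  have hbd : b ≠ d := fun h => hl1 (h ▸ hdY)
  have hd'b : d' ≠ b := fun h => hl1 (h ▸ hdY')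
  have H : Hex inc p1 x s' l2 b d := ⟨hxp.symm, hsp, hxne.symm, bl, dl, hbd, h12, hx, pb, xd, h21, sd⟩
  refine realizable_site2 hcfg (p := p1) (q := x) (s := s') (ℓ := l2) (b := b) (d := d)
    ⟨H, ?_, ?_⟩ ?_
  · intro b2 d2 s2 g1 g2 g3 g4
    by_cases k1 : b2 = l2
    · exact Or.inl k1
    by_cases k2 : d2 = l2
    · exact Or.inr (Or.inl k2)
    obtain ⟨r1, r2, r3⟩ := (hexa x hxX hx b2 d2 s2 g1 g2 g3 g4 k1 k2).resolve_left hxne
    right; right
    refine ⟨r2, ?_⟩
    subst r1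
    exact hcfg.lin x s2 d2 d hxne g2 g4 xd sd
  · intro p' q' ℓ' g1 g2 g3 g4
    by_cases k1 : p' = s'
    · exact Or.inl k1
    by_cases k2 : q' = s'
    · exact Or.inr (Or.inl k2)
    right; right
    have hq' : q' ∈ X := by
      by_contra h
      exact dl (m1 q' d g2 h hdY).2
    have hp' : p' ∉ X := fun h => k1 (m2 p' b g1 h hl1).1
    have hl' : ℓ' ∈ Y := by
      by_contra h
      exact k2 (m2 q' ℓ' g4 hq' h).1
    obtain ⟨r1, r2⟩ := m1 p' ℓ' g3 hp' hl'
    refine ⟨r1, ?_⟩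
    subst r2
    by_contra hne
    exact dl (hcfg.lin q' x d ℓ' hne g2 xd g4 hx)
  · intro X' hX' Y' hY' hcore
    rcases core_R2 hcfg hc H hyp hxy.symm hy hd'b hdd sd' X' Y' hX' hY' hcore with h | h
    · exact h
    · obtain ⟨ZP, ZL, z1, z2, z3, z4, z5, z6, z7, z8⟩ := h
      exact absurd (contra ZP ZL z8 y hyX z1 z2 z5) id

/-- A configuration with a reduction site is realizable. -/
theorem realizable_of_site {inc : P → L → Prop} (hcfg : IsCfg inc) (hc : Conn inc)
    (hsite : (∃ p q r ℓ, SiteR1 inc p q r ℓ) ∨ (∃ p q s ℓ b d, SiteR2 inc p q s ℓ b d)) :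
    Realizable inc := by
  classical
  by_cases hex : ∃ (X : Finset P) (Y : Finset L), (X.Nonempty ∨ Y.Nonempty) ∧
      (X ≠ univ ∨ Y ≠ univ) ∧ (cutSet inc X Y).card ≤ 2
  · exact realizable_of_cut hcfg hc hex
  · rcases hsite with ⟨p, q, r, ℓ, S⟩ | ⟨p, q, s, ℓ, b, d, S⟩
    · refine realizable_site1 hcfg S ?_
      intro X hX Y _ hcore
      rcases core_R1 hcfg hc S.pq S.pr S.qr S.pl S.ql S.rl X Y hX hcore with h | h
      · exact h
      · obtain ⟨ZP, ZL, z1, z2, z3, z4, z5⟩ := h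
        exact absurd ⟨ZP, ZL, Or.inl ⟨r, z1⟩, Or.inl (fun h => z2 (by rw [h]; exact mem_univ _)),
          z5⟩ hex
    · refine realizable_site2 hcfg S ?_
      obtain ⟨u, v, w, e1, e2, e3, huvw⟩ := hcfg.ln ℓ
      obtain ⟨r, hr, rp, rq, -⟩ := third_elt e1 e2 e3 huvw S.pl S.ql S.pq
      obtain ⟨u', v', w', e1', e2', e3', huvw'⟩ := hcfg.pt s
      obtain ⟨h, hh, hb, hd, -⟩ := third_elt e1' e2' e3' huvw' S.sb S.sd S.bd
      intro X hX Y hY hcore
      rcases core_R2 hcfg hc S.toHex rp rq hr hb hd hh X Y hX hY hcore with h | h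
      · exact h
      · obtain ⟨ZP, ZL, z1, z2, z3, z4, z5, z6, z7, z8⟩ := h
        exact absurd ⟨ZP, ZL, Or.inl ⟨r, z1⟩, Or.inl (fun h => z2 (by rw [h]; exact mem_univ _)),
          z8⟩ hex

end Pool.Agent.H378_PL
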