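import Pool.Agent.H378_PL.Start
import Pool.Agent.H378_PL.Cuts

/-!
The closed patterns: two are too small, the others have explicit models.
-/

namespace Pool.Agent.H378_PL

open Finset

variable {P L : Type} [DecidableEq P] [DecidableEq L] [Fintype P] [Fintype L]

/-- Adjacency of the incidence graph. -/
def adjPL (inc : P → L → Prop) : P ⊕ L → P ⊕ L → Prop
  | .inl p, .inr l => inc p l
  | .inr l, .inl p => inc p l
  | _, _ => False

/-- Points on one side, lines on the other. -/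
def sidePL : P ⊕ L → Bool
  | .inl _ => false
  | .inr _ => true

/-- The tables `K`, `T`, `H` are a model of the pattern. -/
def ModelOK (m : Nat) (s : Nat → Bool) (N : Nat → List Nat) (K T : List Nat)
    (H : List (List Nat)) : Prop :=
  (∀ i, i < m → len3 (N i) = true) ∧
  (∀ i, i < m → s i = true → ∀ j, j < m → s j = true → K.getD i 0 = K.getD j 0 → i = j) ∧
  (∀ i, i < m → s i = false → ∀ j, j < m → s j = false → T.getD i 0 = T.getD j 0 → i = j) ∧
  (∀ p, p < m → s p = false → ∀ q, q < m → s q = false → T.getD p 0 < T.getD q 0 →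
    ∀ i, i < m → s i = true → ∀ j, j < m → s j = true → K.getD i 0 < K.getD j 0 →
      (H.getD p []).getD j 0 ≤ (H.getD p []).getD i 0 →
      (H.getD q []).getD j 0 < (H.getD q []).getD i 0) ∧
  (∀ p, p < m → s p = false → ∀ i, i < m → s i = true →
    ((H.getD p []).getD i 0 = 20 ↔ mem3 i (N p) = true))

/-- Bounded conjunction. -/
def allLt (f : Nat → Bool) : Nat → Bool
  | 0 => true
  | n + 1 => cond (f n) (allLt f n) false

theorem allLt_iff (f : Nat → Bool) (n : Nat) : allLt f n = true ↔ ∀ i, i < n → f i = true := by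
  induction n with
  | zero => simp [allLt]
  | succ n ih =>
    unfold allLt
    cases hn : f n with
    | true =>
      simp only [cond_true, ih]
      constructor
      · intro h i hi
        rcases Nat.lt_succ_iff_lt_or_eq.1 hi with h1 | rfl
        · exact h i h1
        · exact hn
      · intro h i hi
        exact h i (by omega)
    | false =>
      simp only [cond_false, Bool.false_eq_true, false_iff]
      intro h
      have := h n (by omega)
      rw [hn] at this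
      cases this

/-- Boolean implication. -/
def bimp (a b : Bool) : Bool := cond a b true

theorem bimp_iff (a b : Bool) : bimp a b = true ↔ (a = true → b = true) := by
  cases a <;> cases b <;> simp [bimp]

/-- Entry of a table. -/
def tab (K : List Nat) (i : Nat) : Nat := K.getD i 0

/-- Entry of a double table. -/
def tab2 (H : List (List Nat)) (p i : Nat) : Nat := (H.getD p []).getD i 0

/-- Boolean version of `ModelOK`. -/
def chkModel (m : Nat) (s : Nat → Bool) (N : Nat → List Nat) (K T : List Nat)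
    (H : List (List Nat)) : Bool :=
  allLt (fun i => len3 (N i)) m &&
  allLt (fun i => bimp (s i) (allLt (fun j => bimp (s j)
    (bimp (Nat.beq (tab K i) (tab K j)) (Nat.beq i j))) m)) m &&
  allLt (fun i => bimp (!(s i)) (allLt (fun j => bimp (!(s j))
    (bimp (Nat.beq (tab T i) (tab T j)) (Nat.beq i j))) m)) m &&
  allLt (fun p => bimp (!(s p)) (allLt (fun q => bimp (!(s q)) (bimp (Nat.blt (tab T p) (tab T q))
    (allLt (fun i => bimp (s i) (allLt (fun j => bimp (s j) (bimp (Nat.blt (tab K i) (tab K j))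
      (bimp (Nat.ble (tab2 H p j) (tab2 H p i)) (Nat.blt (tab2 H q j) (tab2 H q i))))) m)) m)))
      m)) m &&
  allLt (fun p => bimp (!(s p)) (allLt (fun i => bimp (s i)
    (cond (mem3 i (N p)) (Nat.beq (tab2 H p i) 20) (!(Nat.beq (tab2 H p i) 20)))) m)) m

theorem chkModel_ok {m : Nat} {s : Nat → Bool} {N : Nat → List Nat} {K T : List Nat}
    {H : List (List Nat)} (h : chkModel m s N K T H = true) : ModelOK m s N K T H := by
  unfold chkModel at h
  simp only [Bool.and_eq_true, allLt_iff, bimp_iff, blt_iff, Nat.ble_eq,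
    Bool.not_eq_true', Nat.beq_eq] at h
  obtain ⟨⟨⟨⟨h1, h2⟩, h3⟩, h4⟩, h5⟩ := h
  refine ⟨h1, ?_, ?_, ?_, ?_⟩
  · intro i hi hs j hj hs' e
    exact h2 i hi hs j hj hs' e
  · intro i hi hs j hj hs' e
    exact h3 i hi hs j hj hs' e
  · intro p hp hs q hq hs' e i hi hsi j hj hsj e' e''
    exact h4 p hp hs q hq hs' e i hi hsi j hj hsj e' e''
  · intro p hp hs i hi hsi
    have := h5 p hp hs i hi hsi
    change tab2 H p i = 20 ↔ _
    cases e : mem3 i (N p) with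
    | true =>
      rw [e, cond_true] at this
      exact iff_of_true (by simpa using this) rfl
    | false =>
      rw [e, cond_false, nbeq_iff] at this
      exact iff_of_false this (by simp)

theorem emb_surj {inc : P → L → Prop} (hc : Conn inc) {C : Ctx (P ⊕ L)} (hC : C.adj = adjPL inc)
    {m : Nat} {s : Nat → Bool} {N : Nat → List Nat} {φ : Nat → P ⊕ L}
    (h : Emb C m s N φ) (hfull : ∀ i, i < m → len3 (N i) = true) (hm : 0 < m) (v : P ⊕ L) :
    ∃ i, i < m ∧ φ i = v := by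
  classical
  have key := hc (univ.filter (fun p => ∃ i, i < m ∧ φ i = .inl p))
    (univ.filter (fun l => ∃ i, i < m ∧ φ i = .inr l)) ?_
  · rcases key with ⟨h1, h2⟩ | ⟨h1, h2⟩
    · exfalso
      cases h0 : φ 0 with
      | inl p =>
        have : p ∈ univ.filter (fun p => ∃ i, i < m ∧ φ i = .inl p) := by
          simp only [mem_filter, mem_univ, true_and]
          exact ⟨0, hm, h0⟩
        rw [h1] at this
        exact absurd this (notMem_empty _)
      | inr l =>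
        have : l ∈ univ.filter (fun l => ∃ i, i < m ∧ φ i = .inr l) := by
          simp only [mem_filter, mem_univ, true_and]
          exact ⟨0, hm, h0⟩
        rw [h2] at this
        exact absurd this (notMem_empty _)
    · cases v with
      | inl p =>
        have : p ∈ univ.filter (fun p => ∃ i, i < m ∧ φ i = .inl p) := by
          rw [h1]; exact mem_univ _
        simpa using this
      | inr l =>
        have : l ∈ univ.filter (fun l => ∃ i, i < m ∧ φ i = .inr l) := by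
          rw [h2]; exact mem_univ _
        simpa using this
  · intro p x hpx
    simp only [mem_filter, mem_univ, true_and]
    constructor
    · rintro ⟨i, hi, e⟩
      obtain ⟨j, hj, e2⟩ := h.sat hi (hfull i hi) (w := .inr x) (by rw [hC, e]; exact hpx)
      exact ⟨j, h.lt i hi j hj, e2.symm⟩
    · rintro ⟨i, hi, e⟩
      obtain ⟨j, hj, e2⟩ := h.sat hi (hfull i hi) (w := .inl p) (by rw [hC, e]; exact hpx)
      exact ⟨j, h.lt i hi j hj, e2.symm⟩

theorem emb_card {inc : P → L → Prop} (hc : Conn inc) {C : Ctx (P ⊕ L)} (hC : C.adj = adjPL inc)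
    {m : Nat} {s : Nat → Bool} {N : Nat → List Nat} {φ : Nat → P ⊕ L}
    (h : Emb C m s N φ) (hfull : ∀ i, i < m → len3 (N i) = true) (hm : 0 < m) :
    Fintype.card (P ⊕ L) ≤ m := by
  have hs : Function.Surjective (fun i : Fin m => φ i) := by
    intro v
    obtain ⟨i, hi, e⟩ := emb_surj hc hC h hfull hm v
    exact ⟨⟨i, hi⟩, e⟩
  simpa using Fintype.card_le_of_surjective _ hs

theorem emb_model {inc : P → L → Prop} (hc : Conn inc) {C : Ctx (P ⊕ L)}
    (hC : C.adj = adjPL inc) (hS : C.side = sidePL)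
    {m : Nat} {s : Nat → Bool} {N : Nat → List Nat} {φ : Nat → P ⊕ L}
    (h : Emb C m s N φ) (hm : 0 < m) {K T : List Nat} {H : List (List Nat)}
    (hM : ModelOK m s N K T H) : Realizable inc := by
  obtain ⟨hfull, hK, hT, hH, hz⟩ := hM
  choose idx hlt hidx using emb_surj hc hC h hfull hm
  have sp : ∀ p : P, s (idx (.inl p)) = false := fun p => by
    rw [← h.sd _ (hlt _), hidx, hS]; rfl
  have sl : ∀ l : L, s (idx (.inr l)) = true := fun l => by
    rw [← h.sd _ (hlt _), hidx, hS]; rfl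
  refine ⟨fun l => (K.getD (idx (.inr l)) 0 : ℕ), fun p => (T.getD (idx (.inl p)) 0 : ℕ),
    fun p l => (((H.getD (idx (.inl p)) []).getD (idx (.inr l)) 0 : ℕ) : ℝ) - 20, ?_, ?_, ?_, ?_⟩
  · intro l l' e
    have e' : K.getD (idx (.inr l)) 0 = K.getD (idx (.inr l')) 0 := Nat.cast_injective (R := ℝ) e
    have := hK _ (hlt _) (sl l) _ (hlt _) (sl l') e'
    have e2 : (Sum.inr l : P ⊕ L) = Sum.inr l' := by rw [← hidx (.inr l), this, hidx]
    exact Sum.inr_injective e2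
  · intro p p' e
    have e' : T.getD (idx (.inl p)) 0 = T.getD (idx (.inl p')) 0 := Nat.cast_injective (R := ℝ) e
    have := hT _ (hlt _) (sp p) _ (hlt _) (sp p') e'
    have e2 : (Sum.inl p : P ⊕ L) = Sum.inl p' := by rw [← hidx (.inl p), this, hidx]
    exact Sum.inl_injective e2
  · intro p q hpq i j hij hle
    have h1 : T.getD (idx (.inl p)) 0 < T.getD (idx (.inl q)) 0 := (Nat.cast_lt (α := ℝ)).1 hpq
    have h2 : K.getD (idx (.inr i)) 0 < K.getD (idx (.inr j)) 0 := (Nat.cast_lt (α := ℝ)).1 hij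
    have h3 : (H.getD (idx (.inl p)) []).getD (idx (.inr j)) 0 ≤
        (H.getD (idx (.inl p)) []).getD (idx (.inr i)) 0 := by
      exact (Nat.cast_le (α := ℝ)).1 ((sub_le_sub_iff_right (20 : ℝ)).1 hle)
    have h4 := hH _ (hlt _) (sp p) _ (hlt _) (sp q) h1 _ (hlt _) (sl i) _ (hlt _) (sl j) h2 h3
    exact sub_lt_sub_right ((Nat.cast_lt (α := ℝ)).2 h4) 20
  · intro p i
    have h1 := hz _ (hlt (.inl p)) (sp p) _ (hlt (.inr i)) (sl i)
    rw [mem3_iff] at h1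
    have h2 : ((((H.getD (idx (.inl p)) []).getD (idx (.inr i)) 0 : ℕ) : ℝ) - 20 = 0) ↔
        (H.getD (idx (.inl p)) []).getD (idx (.inr i)) 0 = 20 := by
      rw [sub_eq_zero]
      constructor
      · intro e; exact_mod_cast e
      · intro e; rw [e]; norm_num
    rw [h2, h1]
    constructor
    · intro hmem
      have := h.ad _ (hlt _) _ hmem
      rw [hidx, hidx, hC] at this
      exact this
    · intro hinc
      have h3 : C.adj (φ (idx (.inl p))) (.inr i) := by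
        rw [hidx, hC]; exact hinc
      obtain ⟨j, hj, e⟩ := h.sat (hlt _) (hfull _ (hlt _)) h3
      have : idx (.inr i) = j := h.inj _ (hlt _) _ (h.lt _ (hlt _) j hj) (by rw [hidx, e])
      rw [this]
      exact hj

theorem model0 : ModelOK 18 (sdM 91498) (nbM 786491271293250989802703723550231326792442925981465820698217405923858625528338593)
    [0, 1, 0, 3, 0, 4, 5, 0, 2, 0, 7, 0, 0, 0, 8, 0, 6, 0]
    [1, 0, 0, 0, 7, 0, 0, 4, 0, 2, 0, 6, 8, 0, 0, 5, 0, 3]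
    [[0, 20, 0, 18, 0, 20, 20, 0, 19, 0, 22, 0, 0, 17, 23, 0, 21, 0],
     [],
     [0, 20, 0, 20, 0, 21, 22, 0, 20, 0, 24, 0, 0, 19, 25, 0, 23, 0],
     [],
     [0, 22, 0, 20, 0, 20, 17, 0, 21, 0, 20, 0, 0, 23, 18, 0, 19, 0],
     [],
     [],
     [0, 20, 0, 15, 0, 16, 14, 0, 18, 0, 19, 0, 0, 20, 20, 0, 17, 0],
     [],
     [0, 25, 0, 20, 0, 22, 20, 0, 21, 0, 24, 0, 0, 20, 26, 0, 23, 0],
     [],
     [0, 23, 0, 19, 0, 20, 18, 0, 22, 0, 21, 0, 0, 24, 20, 0, 20, 0],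
     [0, 24, 0, 22, 0, 21, 20, 0, 23, 0, 20, 0, 0, 25, 19, 0, 20, 0],
     [],
     [],
     [0, 21, 0, 17, 0, 18, 16, 0, 20, 0, 20, 0, 0, 22, 20, 0, 19, 0],
     [],
     [0, 22, 0, 18, 0, 19, 17, 0, 20, 0, 21, 0, 0, 20, 23, 0, 20, 0]] := by
  exact chkModel_ok (by decide +kernel)

theorem model1 : ModelOK 18 (sdM 157034) (nbM 910383206046246589875281454326019450446497803918531706448208695119492001713625249)
    [0, 6, 0, 5, 0, 2, 4, 0, 7, 0, 0, 0, 0, 1, 3, 0, 0, 8]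
    [4, 0, 8, 0, 1, 0, 0, 2, 0, 0, 0, 6, 7, 0, 0, 5, 3, 0]
    [[0, 20, 0, 19, 0, 20, 20, 0, 21, 0, 23, 0, 0, 24, 22, 0, 0, 25],
     [],
     [0, 20, 0, 20, 0, 23, 21, 0, 20, 0, 25, 0, 0, 24, 22, 0, 0, 19],
     [],
     [0, 24, 0, 20, 0, 20, 21, 0, 25, 0, 20, 0, 0, 22, 23, 0, 0, 26],
     [],
     [],
     [0, 20, 0, 16, 0, 17, 18, 0, 21, 0, 19, 0, 0, 20, 20, 0, 0, 22],
     [],
     [0, 22, 0, 20, 0, 19, 20, 0, 23, 0, 18, 0, 0, 20, 21, 0, 0, 24],
     [],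
     [0, 17, 0, 16, 0, 20, 18, 0, 19, 0, 22, 0, 0, 21, 20, 0, 0, 20],
     [0, 19, 0, 18, 0, 22, 20, 0, 20, 0, 24, 0, 0, 23, 21, 0, 0, 20],
     [],
     [],
     [0, 15, 0, 14, 0, 17, 16, 0, 18, 0, 20, 0, 0, 20, 19, 0, 0, 20],
     [0, 19, 0, 16, 0, 17, 18, 0, 20, 0, 20, 0, 0, 21, 20, 0, 0, 22],
     []] := by
  exact chkModel_ok (by decide +kernel)

theorem model2 : ModelOK 18 (sdM 116074) (nbM 964000535202823014443591859251559873039452782105676495252250466534454581079840929)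
    [0, 4, 0, 3, 0, 2, 0, 0, 5, 0, 1, 0, 0, 0, 7, 8, 6, 0]
    [1, 0, 8, 0, 0, 0, 0, 6, 0, 7, 0, 4, 3, 5, 0, 0, 0, 2]
    [[0, 20, 0, 19, 0, 20, 20, 0, 22, 0, 21, 0, 0, 0, 24, 25, 23, 0],
     [],
     [0, 20, 0, 20, 0, 21, 23, 0, 20, 0, 22, 0, 0, 0, 18, 17, 19, 0],
     [],
     [0, 21, 0, 20, 0, 20, 19, 0, 22, 0, 20, 0, 0, 0, 24, 25, 23, 0],
     [],
     [],
     [0, 20, 0, 18, 0, 22, 24, 0, 21, 0, 23, 0, 0, 0, 19, 20, 20, 0],
     [],
     [0, 22, 0, 20, 0, 24, 26, 0, 23, 0, 25, 0, 0, 0, 20, 20, 21, 0],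
     [],
     [0, 19, 0, 18, 0, 20, 22, 0, 21, 0, 23, 0, 0, 0, 20, 24, 20, 0],
     [0, 17, 0, 16, 0, 18, 20, 0, 20, 0, 21, 0, 0, 0, 20, 22, 19, 0],
     [0, 16, 0, 14, 0, 19, 20, 0, 18, 0, 20, 0, 0, 0, 15, 20, 17, 0],
     [],
     [],
     [],
     [0, 17, 0, 16, 0, 18, 19, 0, 20, 0, 20, 0, 0, 0, 21, 22, 20, 0]] := by
  exact chkModel_ok (by decide +kernel)

theorem model3 : ModelOK 20 (sdM 419178) (nbM 1174218005946662664798588004931371854889223311373914375720959825716314869528557858169297057)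
    [0, 0, 0, 1, 0, 2, 3, 0, 6, 0, 7, 0, 0, 9, 4, 0, 0, 8, 5, 0]
    [2, 0, 1, 0, 6, 0, 0, 3, 0, 5, 0, 7, 8, 0, 0, 4, 9, 0, 0, 0]
    [[0, 20, 0, 19, 0, 20, 20, 0, 18, 0, 23, 0, 0, 24, 22, 0, 0, 25, 21, 0],
     [],
     [0, 20, 0, 20, 0, 21, 22, 0, 20, 0, 25, 0, 0, 26, 24, 0, 0, 27, 23, 0],
     [],
     [0, 23, 0, 20, 0, 20, 19, 0, 17, 0, 20, 0, 0, 18, 22, 0, 0, 24, 21, 0],
     [],
     [],
     [0, 20, 0, 15, 0, 17, 16, 0, 14, 0, 19, 0, 0, 20, 20, 0, 0, 21, 18, 0],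
     [],
     [0, 25, 0, 20, 0, 21, 20, 0, 19, 0, 22, 0, 0, 20, 24, 0, 0, 26, 23, 0],
     [],
     [0, 22, 0, 21, 0, 20, 18, 0, 15, 0, 17, 0, 0, 16, 20, 0, 0, 20, 19, 0],
     [0, 24, 0, 23, 0, 22, 20, 0, 17, 0, 19, 0, 0, 18, 21, 0, 0, 20, 20, 0],
     [],
     [],
     [0, 22, 0, 17, 0, 19, 18, 0, 16, 0, 20, 0, 0, 20, 21, 0, 0, 23, 20, 0],
     [0, 26, 0, 25, 0, 24, 23, 0, 20, 0, 20, 0, 0, 19, 22, 0, 0, 20, 21, 0],
     [],
     [],
     [0, 16, 0, 17, 0, 18, 19, 0, 20, 0, 21, 0, 0, 22, 20, 0, 0, 23, 20, 0]] := by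
  exact chkModel_ok (by decide +kernel)

theorem model4 : ModelOK 20 (sdM 320874) (nbM 917593145341131663179297451223712545540791958429900959922019874873383375635482833644951713)
    [0, 0, 0, 1, 0, 2, 3, 0, 4, 0, 7, 0, 0, 5, 6, 8, 0, 0, 9, 0]
    [8, 0, 9, 0, 5, 0, 0, 7, 0, 6, 0, 4, 3, 0, 0, 0, 2, 1, 0, 0]
    [[0, 20, 0, 21, 0, 20, 20, 0, 22, 0, 17, 0, 0, 19, 18, 16, 0, 0, 15, 0],
     [],
     [0, 20, 0, 20, 0, 19, 18, 0, 20, 0, 15, 0, 0, 17, 16, 14, 0, 0, 13, 0],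
     [],
     [0, 16, 0, 20, 0, 20, 21, 0, 23, 0, 20, 0, 0, 22, 18, 19, 0, 0, 17, 0],
     [],
     [],
     [0, 20, 0, 25, 0, 23, 24, 0, 26, 0, 21, 0, 0, 22, 20, 20, 0, 0, 19, 0],
     [],
     [0, 14, 0, 20, 0, 19, 20, 0, 21, 0, 18, 0, 0, 20, 16, 17, 0, 0, 15, 0],
     [],
     [0, 18, 0, 19, 0, 20, 22, 0, 25, 0, 23, 0, 0, 24, 20, 21, 0, 0, 20, 0],
     [0, 16, 0, 17, 0, 18, 20, 0, 23, 0, 21, 0, 0, 22, 19, 20, 0, 0, 20, 0],
     [],
     [],
     [],
     [0, 14, 0, 15, 0, 16, 18, 0, 21, 0, 20, 0, 0, 20, 17, 19, 0, 0, 20, 0],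
     [0, 14, 0, 15, 0, 16, 17, 0, 20, 0, 20, 0, 0, 19, 18, 20, 0, 0, 21, 0],
     [],
     [0, 16, 0, 17, 0, 18, 19, 0, 20, 0, 21, 0, 0, 20, 20, 22, 0, 0, 23, 0]] := by
  exact chkModel_ok (by decide +kernel)

theorem model5 : ModelOK 20 (sdM 320874) (nbM 981250519542298803796105058484952895518183897330633765390974834039178875552075832967043233)
    [0, 1, 0, 0, 0, 2, 3, 0, 4, 0, 5, 0, 0, 6, 7, 8, 0, 0, 9, 0]
    [0, 0, 9, 0, 8, 0, 0, 3, 0, 7, 0, 5, 6, 0, 0, 0, 4, 1, 0, 2]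
    [[0, 20, 0, 19, 0, 20, 20, 0, 21, 0, 22, 0, 0, 23, 24, 25, 0, 0, 26, 0],
     [],
     [0, 20, 0, 20, 0, 19, 17, 0, 20, 0, 18, 0, 0, 16, 15, 14, 0, 0, 13, 0],
     [],
     [0, 21, 0, 20, 0, 20, 19, 0, 22, 0, 20, 0, 0, 18, 17, 16, 0, 0, 15, 0],
     [],
     [],
     [0, 20, 0, 17, 0, 19, 18, 0, 23, 0, 21, 0, 0, 22, 20, 20, 0, 0, 24, 0],
     [],
     [0, 22, 0, 20, 0, 21, 20, 0, 24, 0, 23, 0, 0, 20, 19, 18, 0, 0, 17, 0],
     [],
     [0, 21, 0, 17, 0, 20, 18, 0, 24, 0, 23, 0, 0, 22, 20, 19, 0, 0, 20, 0],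
     [0, 23, 0, 19, 0, 22, 20, 0, 26, 0, 25, 0, 0, 24, 21, 20, 0, 0, 20, 0],
     [],
     [],
     [],
     [0, 19, 0, 14, 0, 16, 15, 0, 21, 0, 20, 0, 0, 20, 18, 17, 0, 0, 20, 0],
     [0, 19, 0, 16, 0, 18, 17, 0, 20, 0, 20, 0, 0, 21, 20, 22, 0, 0, 23, 0],
     [],
     [0, 17, 0, 14, 0, 16, 15, 0, 20, 0, 19, 0, 0, 20, 18, 20, 0, 0, 21, 0]] := by
  exact chkModel_ok (by decide +kernel)

theorem model6 : ModelOK 20 (sdM 640362) (nbM 798422239590226445263002191168840368193229509002623541333621940235209578068062620321061025)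
    [0, 4, 0, 2, 0, 6, 5, 0, 0, 0, 1, 0, 0, 0, 3, 8, 7, 0, 0, 9]
    [0, 0, 3, 0, 1, 0, 0, 6, 0, 5, 0, 9, 8, 2, 0, 0, 0, 7, 4, 0]
    [[0, 20, 0, 18, 0, 20, 20, 0, 16, 0, 17, 0, 0, 0, 19, 22, 21, 0, 0, 23],
     [],
     [0, 20, 0, 20, 0, 18, 19, 0, 20, 0, 22, 0, 0, 0, 21, 24, 23, 0, 0, 25],
     [],
     [0, 23, 0, 20, 0, 20, 22, 0, 19, 0, 20, 0, 0, 0, 21, 25, 24, 0, 0, 26],
     [],
     [],
     [0, 20, 0, 22, 0, 18, 19, 0, 23, 0, 24, 0, 0, 0, 21, 20, 20, 0, 0, 25],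
     [],
     [0, 18, 0, 20, 0, 16, 17, 0, 21, 0, 22, 0, 0, 0, 20, 20, 19, 0, 0, 23],
     [],
     [0, 23, 0, 25, 0, 20, 22, 0, 27, 0, 26, 0, 0, 0, 24, 20, 21, 0, 0, 20],
     [0, 21, 0, 23, 0, 18, 20, 0, 25, 0, 24, 0, 0, 0, 22, 19, 20, 0, 0, 20],
     [0, 21, 0, 19, 0, 17, 20, 0, 18, 0, 20, 0, 0, 0, 20, 23, 22, 0, 0, 24],
     [],
     [],
     [],
     [0, 17, 0, 19, 0, 13, 15, 0, 20, 0, 20, 0, 0, 0, 18, 14, 16, 0, 0, 20],
     [0, 18, 0, 19, 0, 16, 17, 0, 20, 0, 21, 0, 0, 0, 20, 22, 20, 0, 0, 23],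
     []] := by
  exact chkModel_ok (by decide +kernel)

theorem model7 : ModelOK 20 (sdM 640362) (nbM 1106762646175420720239849678699587592676594611819226153996489519183382070806473575409653921)
    [0, 7, 0, 3, 0, 9, 8, 0, 4, 0, 1, 0, 0, 0, 2, 5, 6, 0, 0, 0]
    [7, 0, 4, 0, 6, 0, 0, 0, 0, 9, 0, 3, 2, 5, 0, 0, 0, 1, 8, 0]
    [[0, 20, 0, 22, 0, 20, 20, 0, 21, 0, 23, 0, 0, 0, 19, 25, 24, 0, 0, 26],
     [],
     [0, 20, 0, 20, 0, 22, 21, 0, 20, 0, 19, 0, 0, 0, 18, 24, 23, 0, 0, 25],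
     [],
     [0, 17, 0, 20, 0, 20, 18, 0, 19, 0, 20, 0, 0, 0, 16, 22, 21, 0, 0, 23],
     [],
     [],
     [0, 20, 0, 18, 0, 22, 21, 0, 19, 0, 16, 0, 0, 0, 17, 20, 20, 0, 0, 15],
     [],
     [0, 17, 0, 20, 0, 15, 16, 0, 19, 0, 21, 0, 0, 0, 20, 20, 18, 0, 0, 22],
     [],
     [0, 17, 0, 15, 0, 20, 18, 0, 16, 0, 14, 0, 0, 0, 13, 20, 19, 0, 0, 20],
     [0, 19, 0, 17, 0, 22, 20, 0, 18, 0, 16, 0, 0, 0, 15, 21, 20, 0, 0, 20],
     [0, 19, 0, 21, 0, 22, 20, 0, 20, 0, 20, 0, 0, 0, 18, 24, 23, 0, 0, 25],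
     [],
     [],
     [],
     [0, 23, 0, 21, 0, 27, 26, 0, 22, 0, 20, 0, 0, 0, 20, 25, 24, 0, 0, 20],
     [0, 19, 0, 21, 0, 17, 18, 0, 20, 0, 22, 0, 0, 0, 20, 23, 20, 0, 0, 24],
     []] := by
  exact chkModel_ok (by decide +kernel)

theorem closed_un {inc : P → L → Prop} (hc : Conn inc) {C : Ctx (P ⊕ L)}
    (hC : C.adj = adjPL inc) (hS : C.side = sidePL) (hcard : 18 ≤ Fintype.card (P ⊕ L))
    (hno : ¬ Realizable inc) : ∀ q ∈ closedPats, UnP C q := by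
  intro q hq φ h
  simp only [closedPats, List.mem_cons, List.not_mem_nil, or_false] at hq
  rcases hq with rfl | rfl | rfl | rfl | rfl | rfl | rfl | rfl | rfl | rfl
  · have := emb_card hc hC h (by decide +kernel) (by decide)
    change Fintype.card (P ⊕ L) ≤ 14 at this
    omega
  · have := emb_card hc hC h (by decide +kernel) (by decide)
    change Fintype.card (P ⊕ L) ≤ 16 at this
    omega
  · exact hno (emb_model hc hC hS h (by decide) model0)
  · exact hno (emb_model hc hC hS h (by decide) model1)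
  · exact hno (emb_model hc hC hS h (by decide) model2)
  · exact hno (emb_model hc hC hS h (by decide) model3)
  · exact hno (emb_model hc hC hS h (by decide) model4)
  · exact hno (emb_model hc hC hS h (by decide) model5)
  · exact hno (emb_model hc hC hS h (by decide) model6)
  · exact hno (emb_model hc hC hS h (by decide) model7)

end Pool.Agent.H378_PL
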