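import Pool.Agent.H378_PL.Insert

/-! Resolution of the two degenerations. -/

namespace Pool.Agent.H378_PL

open Finset

variable {P L : Type*}

/-- A full discrete model of an incidence structure. -/
def Realizable (inc : P → L → Prop) : Prop :=
  ∃ (key : L → ℝ) (tm : P → ℝ) (h : P → L → ℝ), Function.Injective key ∧ Function.Injective tm ∧
    (∀ p q, tm p < tm q → ∀ i j, key i < key j → h p j ≤ h p i → h q j < h q i) ∧
    ∀ p i, h p i = 0 ↔ inc p i

theorem exists_real_univ {α : Type*} [LinearOrder α] {M : Type*} [Fintype M] (w : M → α) :
    ∃ w' : M → ℝ, ∀ i j, (w' i < w' j ↔ w i < w j) := by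
  classical
  rcases isEmpty_or_nonempty M with h | ⟨⟨m⟩⟩
  · exact ⟨fun _ => 0, fun i => (h.false i).elim⟩
  · obtain ⟨w', hw, -⟩ := exists_real (Finset.univ : Finset M) w (w m)
    exact ⟨w', fun i j => hw i (mem_univ _) j (mem_univ _)⟩

/-- A model with values in linear orders gives a real model. -/
theorem realizable_of_orders [Fintype P] [Fintype L] {κ τ α : Type*} [LinearOrder κ]
    [LinearOrder τ] [LinearOrder α] (inc : P → L → Prop) (key : L → κ) (tm : P → τ)
    (h : P → L → α) (z : P → α) (hkey : Function.Injective key) (htm : Function.Injective tm)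
    (hrel : ∀ p q, tm p < tm q → ∀ i j, key i < key j → h p j ≤ h p i → h q j < h q i)
    (hex : ∀ p i, h p i = z p ↔ inc p i) : Realizable inc := by
  classical
  obtain ⟨key', hk⟩ := exists_real_univ key
  obtain ⟨tm', ht⟩ := exists_real_univ tm
  have hh : ∀ p, ∃ w' : L → ℝ, (∀ i j, (w' i < w' j ↔ h p i < h p j)) ∧
      (∀ i, (w' i = 0 ↔ h p i = z p)) := by
    intro p
    obtain ⟨w', h1, h2⟩ := exists_real (Finset.univ : Finset L) (h p) (z p)
    exact ⟨w', fun i j => h1 i (mem_univ _) j (mem_univ _), fun i => h2 i (mem_univ _)⟩
  choose h' hh1 hh2 using hh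
  refine ⟨key', tm', h', ?_, ?_, ?_, ?_⟩
  · intro i j hij
    apply hkey
    rcases lt_trichotomy (key i) (key j) with h | h | h
    · exact absurd ((hk i j).mpr h) (by rw [hij]; exact lt_irrefl _)
    · exact h
    · exact absurd ((hk j i).mpr h) (by rw [hij]; exact lt_irrefl _)
  · intro i j hij
    apply htm
    rcases lt_trichotomy (tm i) (tm j) with h | h | h
    · exact absurd ((ht i j).mpr h) (by rw [hij]; exact lt_irrefl _)
    · exact h
    · exact absurd ((ht j i).mpr h) (by rw [hij]; exact lt_irrefl _)
  · intro p q hpq i j hij hle
    rw [hh1]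
    refine hrel p q ((ht p q).mp hpq) i j ((hk i j).mp hij) ?_
    by_contra hc
    exact absurd ((hh1 p i j).mpr (not_le.mp hc)) (not_lt.mpr hle)
  · intro p i
    rw [hh2]
    exact hex p i

/-- The numerical core of both resolutions. `κi`, `κj` are key differences with the line `ℓ`. -/
theorem split_core {pi pj qi qj : Prop} [Decidable pi] [Decidable pj] [Decidable qi]
    [Decidable qj] {κi κj : ℝ} (hk : κi < κj) (hi : pi ∨ qi) (hj : pj ∨ qj)
    (hi0 : pi → qi → κi = 0) (hj0 : pj → qj → κj = 0)
    (h : (if qj then κj else 0) ≤ (if qi then κi else 0)) :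
    (if pj then -κj else 0) < (if pi then -κi else 0) := by
  by_cases h1 : pi <;> by_cases h2 : pj <;> by_cases h3 : qi <;> by_cases h4 : qj <;>
    simp only [h1, h2, h3, h4, if_true, if_false, or_self, or_true, or_false,
      forall_true_left, IsEmpty.forall_iff] at * <;>
    linarith

variable [DecidableEq P] [DecidableEq L]

/-- First resolution: two points `p`, `q` of a line `ℓ` that have been identified are separated
along `ℓ`. -/
theorem realizable_R1 [Fintype P] [Fintype L] (inc : P → L → Prop) (p q : P) (ℓ : L)
    (hpq : p ≠ q) (hpl : inc p ℓ) (hql : inc q ℓ) (hlin : ∀ i, inc p i → inc q i → i = ℓ)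
    (R : PR (fun t i => inc t i ∨ (t = p ∧ inc q i)) (univ.erase q) univ) :
    Realizable inc := by
  classical
  set g : P → P := fun t => if t = q then p else t with hg
  have gq : g q = p := by simp [hg]
  have gne : ∀ t, t ≠ q → g t = t := fun t ht => by simp [hg, ht]
  have gmem : ∀ t, g t ∈ univ.erase q := by
    intro t
    by_cases ht : t = q
    · subst ht; rw [gq]; exact mem_erase.mpr ⟨hpq, mem_univ _⟩
    · rw [gne t ht]; exact mem_erase.mpr ⟨ht, mem_univ _⟩
  set x : P → L → ℝ := fun t i => if t = p then (if inc q i then R.key i - R.key ℓ else 0)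
    else if t = q then (if inc p i then -(R.key i - R.key ℓ) else 0) else 0 with hx
  have xp : ∀ i, x p i = if inc q i then R.key i - R.key ℓ else 0 := fun i => by
    simp only [hx, if_true]
  have xq : ∀ i, x q i = if inc p i then -(R.key i - R.key ℓ) else 0 := fun i => by
    simp only [hx, if_neg hpq.symm, if_true]
  have xo : ∀ t i, t ≠ p → t ≠ q → x t i = 0 := fun t i h1 h2 => by
    simp only [hx, if_neg h1, if_neg h2]
  have keyinj : Function.Injective R.key := fun i j h =>
    R.key_inj i (mem_univ _) j (mem_univ _) h
  refine realizable_of_orders (κ := ℝ) (τ := ℝ ×ₗ ℕ) (α := ℝ ×ₗ ℝ) inc R.key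
    (fun t => toLex (R.tm (g t), if t = q then 1 else 0))
    (fun t i => toLex (R.h (g t) i, x t i)) (fun _ => toLex (0, 0)) keyinj ?_ ?_ ?_
  · intro s t hst
    simp only [toLex_inj, Prod.mk.injEq] at hst
    have h1 := R.tm_inj _ (gmem s) _ (gmem t) hst.1
    by_cases hs : s = q
    · by_cases ht : t = q
      · rw [hs, ht]
      · simp [hs, ht] at hst
    · by_cases ht : t = q
      · simp [hs, ht] at hst
      · rw [gne s hs, gne t ht] at h1
        exact h1
  · intro s t hst i j hij hle
    rw [Prod.Lex.toLex_lt_toLex] at hst
    rw [Prod.Lex.toLex_le_toLex] at hle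
    rw [Prod.Lex.toLex_lt_toLex]
    simp only at hst hle ⊢
    rcases hst with hst | ⟨hst, hst2⟩
    · left
      refine R.rel _ (gmem s) _ (gmem t) hst i (mem_univ _) j (mem_univ _) hij ?_
      rcases hle with h | h
      · exact h.le
      · exact h.1.le
    · have h1 := R.tm_inj _ (gmem s) _ (gmem t) hst
      have ht : t = q := by
        by_contra ht
        rw [if_neg ht] at hst2
        exact absurd hst2 (Nat.not_lt_zero _)
      have hs : s ≠ q := by
        intro hs
        rw [if_pos hs, if_pos ht] at hst2
        exact absurd hst2 (lt_irrefl _)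
      have hs' : s = p := by
        rw [gne s hs, ht, gq] at h1
        exact h1
      subst ht
      subst hs'
      rw [gq]
      rw [gne s hs] at hle
      rcases hle with h | ⟨h, h2⟩
      · exact Or.inl h
      · right
        refine ⟨h, ?_⟩
        have hsp := gmem s
        rw [gne s hs] at hsp
        have hne : j ≠ i := fun h' => by subst h'; exact lt_irrefl _ hij
        have h0 := R.simple s hsp j (mem_univ _) i (mem_univ _) hne h
        have hj := (R.exact s hsp j (mem_univ _)).mp h0
        have hi := (R.exact s hsp i (mem_univ _)).mp (h ▸ h0)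
        simp only [true_and] at hi hj
        rw [xp, xp] at h2
        rw [xq, xq]
        refine split_core (sub_lt_sub_right hij _) hi hj ?_ ?_ h2
        · intro h3 h4; rw [hlin i h3 h4]; ring
        · intro h3 h4; rw [hlin j h3 h4]; ring
  · intro t i
    simp only [toLex_inj, Prod.mk.injEq]
    rw [R.exact _ (gmem t) i (mem_univ _)]
    by_cases htp : t = p
    · subst htp
      rw [gne t hpq, xp]
      constructor
      · rintro ⟨h1, h2⟩
        by_cases hq : inc q i
        · rw [if_pos hq] at h2
          have : i = ℓ := keyinj (by linarith)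
          rw [this]; exact hpl
        · rcases h1 with h1 | h1
          · exact h1
          · exact absurd h1.2 hq
      · intro h
        refine ⟨Or.inl h, ?_⟩
        by_cases hq : inc q i
        · rw [if_pos hq, hlin i h hq]; ring
        · rw [if_neg hq]
    · by_cases htq : t = q
      · subst htq
        rw [gq, xq]
        constructor
        · rintro ⟨h1, h2⟩
          by_cases hp : inc p i
          · rw [if_pos hp] at h2
            have : i = ℓ := keyinj (by linarith)
            rw [this]; exact hql
          · rcases h1 with h1 | h1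
            · exact absurd h1 hp
            · exact h1.2
        · intro h
          refine ⟨Or.inr ⟨rfl, h⟩, ?_⟩
          by_cases hp : inc p i
          · rw [if_pos hp, hlin i hp h]; ring
          · rw [if_neg hp]
      · rw [gne t htq, xo t i htp htq]
        constructor
        · rintro ⟨h1 | h1, -⟩
          · exact h1
          · exact absurd h1.1 htp
        · exact fun h => ⟨Or.inl h, rfl⟩

/-- Second resolution: a folded hexagon `ℓ, p, b, s, d, q` is unfolded. -/
theorem realizable_R2 [Fintype P] [Fintype L] (inc : P → L → Prop) (p q s : P) (ℓ b d : L)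
    (hpq : p ≠ q) (hsp : s ≠ p) (hsq : s ≠ q) (hbl : b ≠ ℓ) (hdl : d ≠ ℓ) (hbd : b ≠ d)
    (hpl : inc p ℓ) (hql : inc q ℓ) (hpb : inc p b) (hqd : inc q d) (hsb : inc s b)
    (hsd : inc s d) (hlin : ∀ i, inc p i → inc q i → i = ℓ)
    (hlin2 : ∀ t, inc t b → inc t d → t = s)
    (R : PR (fun t i => inc t i ∨ (t = p ∧ inc q i) ∨ (i = d ∧ inc t b)) (univ.erase q)
      (univ.erase b)) :
    Realizable inc := by
  classical
  set g : P → P := fun t => if t = q then p else t with hg
  have gq : g q = p := by simp [hg]
  have gne : ∀ t, t ≠ q → g t = t := fun t ht => by simp [hg, ht]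
  have gmem : ∀ t, g t ∈ univ.erase q := by
    intro t
    by_cases ht : t = q
    · subst ht; rw [gq]; exact mem_erase.mpr ⟨hpq, mem_univ _⟩
    · rw [gne t ht]; exact mem_erase.mpr ⟨ht, mem_univ _⟩
  have gs : g s = s := gne s hsq
  set f : L → L := fun i => if i = b then d else i with hf
  have fb : f b = d := by simp [hf]
  have fne : ∀ i, i ≠ b → f i = i := fun i hi => by simp [hf, hi]
  have fmem : ∀ i, f i ∈ univ.erase b := by
    intro i
    by_cases hi : i = b
    · subst hi; rw [fb]; exact mem_erase.mpr ⟨hbd.symm, mem_univ _⟩
    · rw [fne i hi]; exact mem_erase.mpr ⟨hi, mem_univ _⟩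
  have fl : f ℓ = ℓ := fne ℓ hbl.symm
  have fd : f d = d := fne d hbd.symm
  have finj : ∀ i j, f i = f j → i ≠ j → (i = b ∧ j = d) ∨ (i = d ∧ j = b) := by
    intro i j hij hne
    by_cases hi : i = b
    · have hj : j ≠ b := fun h => hne (hi.trans h.symm)
      rw [hi, fb, fne j hj] at hij
      exact Or.inl ⟨hi, hij.symm⟩
    · by_cases hj : j = b
      · rw [hj, fb, fne i hi] at hij
        exact Or.inr ⟨hij, hj⟩
      · rw [fne i hi, fne j hj] at hij
        exact absurd hij hne
  have keyinj : ∀ i j, R.key (f i) = R.key (f j) → f i = f j :=
    fun i j h => R.key_inj _ (fmem i) _ (fmem j) h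
  set κ : ℝ := R.key d - R.key ℓ with hκ
  have hκ0 : κ ≠ 0 := by
    intro h
    have : R.key (f d) = R.key (f ℓ) := by rw [fd, fl]; linarith
    have := keyinj _ _ this
    rw [fd, fl] at this
    exact hdl this
  set ρ : ℝ := if R.tm p < R.tm s then -κ else κ with hρ
  have hρ0 : ρ ≠ 0 := by
    rw [hρ]; split_ifs
    · exact neg_ne_zero.mpr hκ0
    · exact hκ0
  set σ : P → ℝ := fun t => if R.tm t < R.tm s then ρ else if t = s then 0 else -ρ with hσ
  have hσp : σ p = -κ := by
    have hne : ¬ p = s := fun h => hsp h.symm
    simp only [hσ, hρ]
    by_cases h : R.tm p < R.tm s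
    · simp [h]
    · simp [h, hne]
  -- the second coordinates
  set x : P → L → ℝ := fun t i =>
    if t = p then (if inc q i then R.key (f i) - R.key ℓ else 0)
    else if t = q then (if inc p i then -(R.key (f i) - R.key ℓ) else 0)
    else if i = b then (if inc t b then 0 else σ t)
    else if i = d then (if inc t b then - σ t else 0) else 0 with hx
  have xp : ∀ i, x p i = if inc q i then R.key (f i) - R.key ℓ else 0 := fun i => by
    simp only [hx, if_true]
  have xq : ∀ i, x q i = if inc p i then -(R.key (f i) - R.key ℓ) else 0 := fun i => by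
    simp only [hx, if_neg hpq.symm, if_true]
  have xb : ∀ t, t ≠ p → t ≠ q → x t b = if inc t b then 0 else σ t := fun t h1 h2 => by
    simp only [hx, if_neg h1, if_neg h2, if_true]
  have xd : ∀ t, t ≠ p → t ≠ q → x t d = if inc t b then - σ t else 0 := fun t h1 h2 => by
    simp only [hx, if_neg h1, if_neg h2, if_neg hbd.symm, if_true]
  have xo : ∀ t i, t ≠ p → t ≠ q → i ≠ b → i ≠ d → x t i = 0 := fun t i h1 h2 h3 h4 => by
    simp only [hx, if_neg h1, if_neg h2, if_neg h3, if_neg h4]
  have hqb : ¬ inc q b := fun h => hbl (hlin b hpb h)
  have hpd : ¬ inc p d := fun h => hdl (hlin d h hqd)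
  -- the difference of the second coordinates of `b` and `d`
  have hD : ∀ t, x t b - x t d = σ (g t) := by
    intro t
    by_cases htp : t = p
    · subst htp
      rw [xp, xp, if_neg hqb, if_pos hqd, fd, gne t hpq, hσp]
      ring
    · by_cases htq : t = q
      · subst htq
        rw [xq, xq, if_pos hpb, if_neg hpd, fb, gq, hσp]
        ring
      · rw [xb t htp htq, xd t htp htq, gne t htq]
        by_cases h : inc t b
        · rw [if_pos h, if_pos h]; ring
        · rw [if_neg h, if_neg h]; ring
  -- monotonicity of the sign of `σ`
  have hmono : ∀ u t, toLex (R.tm (g u), if u = q then (1 : ℕ) else 0) <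
      toLex (R.tm (g t), if t = q then (1 : ℕ) else 0) →
      (0 ≤ ρ * (- σ (g u)) → 0 < ρ * (- σ (g t))) := by
    intro u t hut h
    rw [Prod.Lex.toLex_lt_toLex] at hut
    simp only at hut
    have hle : R.tm (g u) ≤ R.tm (g t) := by
      rcases hut with h1 | h1
      · exact h1.le
      · exact h1.1.le
    have hρ2 : 0 < ρ * ρ := mul_self_pos.mpr hρ0
    have h1 : ¬ R.tm (g u) < R.tm s := by
      intro h1
      have : σ (g u) = ρ := by simp only [hσ, if_pos h1]
      rw [this] at h
      nlinarith
    have h2 : ¬ R.tm (g t) < R.tm s := fun h2 => h1 (lt_of_le_of_lt hle h2)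
    have h3 : g t ≠ s := by
      intro h3
      have ht : t = s := by
        by_cases htq : t = q
        · rw [htq, gq] at h3; exact absurd h3.symm hsp
        · rw [gne t htq] at h3; exact h3
      have h4 : R.tm (g u) = R.tm (g t) := le_antisymm hle (by rw [h3]; exact not_lt.mp h1)
      have h5 := R.tm_inj _ (gmem u) _ (gmem t) h4
      rw [h3] at h5
      have hu : u = s := by
        by_cases huq : u = q
        · rw [huq, gq] at h5; exact absurd h5.symm hsp
        · rw [gne u huq] at h5; exact h5
      rw [hu, ht] at hut
      rcases hut with h6 | h6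
      · exact lt_irrefl _ h6
      · exact lt_irrefl _ h6.2
    have : σ (g t) = -ρ := by simp only [hσ, if_neg h2, if_neg h3]
    rw [this]
    nlinarith
  refine realizable_of_orders (κ := ℝ ×ₗ ℝ) (τ := ℝ ×ₗ ℕ) (α := ℝ ×ₗ ℝ) inc
    (fun i => toLex (R.key (f i), if i = b then ρ else 0))
    (fun t => toLex (R.tm (g t), if t = q then 1 else 0))
    (fun t i => toLex (R.h (g t) (f i), x t i)) (fun _ => toLex (0, 0)) ?_ ?_ ?_ ?_
  · intro i j hij
    simp only [toLex_inj, Prod.mk.injEq] at hij
    by_contra hne
    rcases finj i j (keyinj i j hij.1) hne with ⟨rfl, rfl⟩ | ⟨rfl, rfl⟩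
    · simp [hbd.symm, hρ0] at hij
    · simp [hbd.symm, hρ0.symm] at hij
  · intro s t hst
    simp only [toLex_inj, Prod.mk.injEq] at hst
    have h1 := R.tm_inj _ (gmem s) _ (gmem t) hst.1
    by_cases hs : s = q
    · by_cases ht : t = q
      · rw [hs, ht]
      · simp [hs, ht] at hst
    · by_cases ht : t = q
      · simp [hs, ht] at hst
      · rw [gne s hs, gne t ht] at h1
        exact h1
  · intro u t hut i j hij hle
    have hut' := hut
    rw [Prod.Lex.toLex_lt_toLex] at hut hij
    rw [Prod.Lex.toLex_le_toLex] at hle
    rw [Prod.Lex.toLex_lt_toLex]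
    simp only at hut hij hle ⊢
    rcases hij with hij | ⟨hij, hij2⟩
    · -- different old lines
      rcases hut with hut | ⟨hut, hut2⟩
      · left
        refine R.rel _ (gmem u) _ (gmem t) hut _ (fmem i) _ (fmem j) hij ?_
        rcases hle with h | h
        · exact h.le
        · exact h.1.le
      · have h1 := R.tm_inj _ (gmem u) _ (gmem t) hut
        have ht : t = q := by
          by_contra ht
          rw [if_neg ht] at hut2
          exact absurd hut2 (Nat.not_lt_zero _)
        have hs : u ≠ q := by
          intro hs
          rw [if_pos hs, if_pos ht] at hut2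
          exact absurd hut2 (lt_irrefl _)
        have hs' : u = p := by
          rw [gne u hs, ht, gq] at h1
          exact h1
        subst ht
        subst hs'
        rw [gq]
        rw [gne u hs] at hle
        rcases hle with h | ⟨h, h2⟩
        · exact Or.inl h
        · right
          refine ⟨h, ?_⟩
          have hup := gmem u
          rw [gne u hs] at hup
          have hne : f j ≠ f i := fun h' => by rw [h'] at hij; exact lt_irrefl _ hij
          have h0 := R.simple u hup _ (fmem j) _ (fmem i) hne h
          have hj := (R.exact u hup _ (fmem j)).mp h0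
          have hi := (R.exact u hup _ (fmem i)).mp (h ▸ h0)
          have conv : ∀ i, (inc u (f i) ∨ (u = u ∧ inc t (f i)) ∨ (f i = d ∧ inc u b)) →
              (inc u i ∨ inc t i) := by
            intro i hi
            by_cases hib : i = b
            · rw [hib]; exact Or.inl hpb
            · rw [fne i hib] at hi
              rcases hi with hi | hi | hi
              · exact Or.inl hi
              · exact Or.inr hi.2
              · rw [hi.1]; exact Or.inr hqd
          rw [xp, xp] at h2
          rw [xq, xq]
          refine split_core (sub_lt_sub_right hij _) (conv i hi) (conv j hj) ?_ ?_ h2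
          · intro h3 h4; rw [hlin i h3 h4, fl]; ring
          · intro h3 h4; rw [hlin j h3 h4, fl]; ring
    · -- the pair `b`, `d`
      have hfe := keyinj i j hij
      have hne : i ≠ j := fun h => by rw [h] at hij2; exact lt_irrefl _ hij2
      have hm := hmono u t hut'
      have hρ2 : 0 < ρ * ρ := mul_self_pos.mpr hρ0
      have hle2 : x u j ≤ x u i := by
        rw [hfe] at hle
        rcases hle with h | h
        · exact absurd h (lt_irrefl _)
        · exact h.2
      right
      rw [hfe]
      refine ⟨rfl, ?_⟩
      have hDu := hD u
      have hDt := hD t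
      rcases finj i j hfe hne with ⟨rfl, rfl⟩ | ⟨rfl, rfl⟩
      · rw [if_pos rfl, if_neg hbd.symm] at hij2
        have h1 : 0 ≤ ρ * (- σ (g u)) := by nlinarith
        have h2 := hm h1
        have : 0 < σ (g t) := by
          by_contra hc
          nlinarith
        linarith
      · rw [if_pos rfl, if_neg hbd.symm] at hij2
        have h1 : 0 ≤ ρ * (- σ (g u)) := by nlinarith
        have h2 := hm h1
        have : σ (g t) < 0 := by
          by_contra hc
          nlinarith
        linarith
  · intro t i
    simp only [toLex_inj, Prod.mk.injEq]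
    rw [R.exact _ (gmem t) _ (fmem i)]
    by_cases htp : t = p
    · subst htp
      rw [gne t hpq, xp]
      constructor
      · rintro ⟨h1, h2⟩
        by_cases hib : i = b
        · rw [hib]; exact hpb
        · rw [fne i hib] at h1 h2
          by_cases hq : inc q i
          · rw [if_pos hq] at h2
            have h3 : R.key (f i) = R.key (f ℓ) := by rw [fne i hib, fl]; linarith
            have h4 := keyinj _ _ h3
            rw [fne i hib, fl] at h4
            rw [h4]; exact hpl
          · rcases h1 with h1 | h1 | h1
            · exact h1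
            · exact absurd h1.2 hq
            · rw [h1.1] at hq; exact absurd hqd hq
      · intro h
        by_cases hib : i = b
        · subst hib
          rw [if_neg hqb, fb]
          exact ⟨Or.inr (Or.inr ⟨rfl, hpb⟩), rfl⟩
        · rw [fne i hib]
          refine ⟨Or.inl h, ?_⟩
          by_cases hq : inc q i
          · rw [if_pos hq, hlin i h hq]; ring
          · rw [if_neg hq]
    · by_cases htq : t = q
      · subst htq
        rw [gq, xq]
        constructor
        · rintro ⟨h1, h2⟩
          by_cases hib : i = b
          · subst hib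
            rw [if_pos hpb, fb] at h2
            exact absurd h2 (by rw [← hκ]; exact neg_ne_zero.mpr hκ0)
          · rw [fne i hib] at h1 h2
            by_cases hp : inc p i
            · rw [if_pos hp] at h2
              have h3 : R.key (f i) = R.key (f ℓ) := by rw [fne i hib, fl]; linarith
              have h4 := keyinj _ _ h3
              rw [fne i hib, fl] at h4
              rw [h4]; exact hql
            · rcases h1 with h1 | h1 | h1
              · exact absurd h1 hp
              · exact h1.2
              · rw [h1.1]; exact hqd
        · intro h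
          have hib : i ≠ b := fun h' => hqb (h' ▸ h)
          rw [fne i hib]
          refine ⟨Or.inr (Or.inl ⟨rfl, h⟩), ?_⟩
          by_cases hp : inc p i
          · rw [if_pos hp, hlin i hp h]; ring
          · rw [if_neg hp]
      · rw [gne t htq]
        have σ0 : σ t = 0 ↔ t = s := by
          simp only [hσ]
          constructor
          · intro h
            by_contra hts
            split_ifs at h with h1
            · exact hρ0 h
            · exact hρ0 (neg_eq_zero.mp h)
          · rintro rfl
            simp
        by_cases hib : i = b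
        · subst hib
          rw [xb t htp htq, fb]
          constructor
          · rintro ⟨-, h2⟩
            by_contra hc
            rw [if_neg hc, σ0] at h2
            rw [h2] at hc
            exact hc hsb
          · intro h
            rw [if_pos h]
            exact ⟨Or.inr (Or.inr ⟨rfl, h⟩), rfl⟩
        · rw [fne i hib]
          by_cases hid : i = d
          · subst hid
            rw [xd t htp htq]
            constructor
            · rintro ⟨h1, h2⟩
              by_cases h : inc t b
              · rw [if_pos h, neg_eq_zero, σ0] at h2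
                rw [h2]; exact hsd
              · rcases h1 with h1 | h1 | h1
                · exact h1
                · exact absurd h1.1 htp
                · exact absurd h1.2 h
            · intro h
              refine ⟨Or.inl h, ?_⟩
              by_cases h' : inc t b
              · rw [if_pos h', neg_eq_zero, σ0]
                exact hlin2 t h' h
              · rw [if_neg h']
          · rw [xo t i htp htq hib hid]
            constructor
            · rintro ⟨h1 | h1 | h1, -⟩
              · exact h1
              · exact absurd h1.1 htp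
              · exact absurd h1.1 hid
            · exact fun h => ⟨Or.inl h, rfl⟩

end Pool.Agent.H378_PL
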