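import Pool.Agent.H378_PL.Search

/-!
Soundness of the certificate checker.
-/

namespace Pool.Agent.H378_PL

universe u

variable {V : Type u}

theorem mem3_iff (a : Nat) (l : List Nat) : mem3 a l = true ↔ a ∈ l := by
  induction l with
  | nil => simp [mem3]
  | cons b l ih =>
    unfold mem3
    cases hb : Nat.beq a b with
    | true => simp [Nat.eq_of_beq_eq_true hb]
    | false =>
      have : a ≠ b := Nat.ne_of_beq_eq_false hb
      simp [ih, this]

theorem len3_iff {l : List Nat} (h : len3 l = true) : ∃ a b c, l = [a, b, c] := by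
  unfold len3 at h
  split at h
  · exact ⟨_, _, _, rfl⟩
  · cases h

theorem all3_iff (f : Nat → Bool) (l : List Nat) : all3 f l = true ↔ ∀ x ∈ l, f x = true := by
  induction l with
  | nil => simp [all3]
  | cons b l ih =>
    unfold all3
    cases hb : f b <;> simp [ih, hb]

theorem any3_iff (f : Nat → Bool) (l : List Nat) : any3 f l = true ↔ ∃ x ∈ l, f x = true := by
  induction l with
  | nil => simp [any3]
  | cons b l ih =>
    unfold any3
    cases hb : f b <;> simp [ih, hb]

theorem pigeon3 {α : Type u} {A B D a b c w : α} (ha : a = A ∨ a = B ∨ a = D)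
    (hb : b = A ∨ b = B ∨ b = D) (hc : c = A ∨ c = B ∨ c = D) (hw : w = A ∨ w = B ∨ w = D)
    (hab : a ≠ b) (hac : a ≠ c) (hbc : b ≠ c) : w = a ∨ w = b ∨ w = c := by
  rcases ha with rfl | rfl | rfl <;> rcases hb with rfl | rfl | rfl <;>
    rcases hc with rfl | rfl | rfl <;> tauto

theorem Emb.sat {C : Ctx V} {m : Nat} {s : Nat → Bool} {N : Nat → List Nat} {φ : Nat → V}
    (h : Emb C m s N φ) {i : Nat} (hi : i < m)
    (h3 : len3 (N i) = true) {w : V} (hw : C.adj (φ i) w) : ∃ j ∈ N i, w = φ j := by
  obtain ⟨a, b, c, hN⟩ := len3_iff h3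
  have hnd := h.nd i hi
  have hlt := h.lt i hi
  have had := h.ad i hi
  rw [hN] at hnd hlt had
  simp only [List.nodup_cons, List.mem_cons, List.not_mem_nil, or_false, not_or,
    not_false_eq_true, List.nodup_nil, and_true] at hnd
  obtain ⟨⟨hab, hac⟩, hbc⟩ := hnd
  have la := hlt a (by simp)
  have lb := hlt b (by simp)
  have lc := hlt c (by simp)
  obtain ⟨A, B, D, -, -, -, hiff⟩ := C.three (φ i)
  have ha := (hiff _).1 (had a (by simp))
  have hb := (hiff _).1 (had b (by simp))
  have hc := (hiff _).1 (had c (by simp))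
  have := pigeon3 ha hb hc ((hiff w).1 hw) (fun e => hab (h.inj _ la _ lb e))
    (fun e => hac (h.inj _ la _ lc e)) (fun e => hbc (h.inj _ lb _ lc e))
  rw [hN]
  rcases this with e | e | e
  · exact ⟨a, by simp, e⟩
  · exact ⟨b, by simp, e⟩
  · exact ⟨c, by simp, e⟩

theorem Emb.unsat {C : Ctx V} {m : Nat} {s : Nat → Bool} {N : Nat → List Nat} {φ : Nat → V}
    (_h : Emb C m s N φ) {i : Nat} (_hi : i < m)
    (h3 : lenLt3 (N i) = true) : ∃ y, C.adj (φ i) y ∧ ∀ j ∈ N i, y ≠ φ j := by
  obtain ⟨A, B, D, hAB, hAD, hBD, hiff⟩ := C.three (φ i)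
  by_contra hcon
  push Not at hcon
  have hA := hcon A ((hiff A).2 (Or.inl rfl))
  have hB := hcon B ((hiff B).2 (Or.inr (Or.inl rfl)))
  have hD := hcon D ((hiff D).2 (Or.inr (Or.inr rfl)))
  unfold lenLt3 at h3
  split at h3
  · rename_i e
    rw [e] at hA
    simp at hA
  · rename_i x e
    rw [e] at hA hB
    simp only [List.mem_cons, List.not_mem_nil, or_false, exists_eq_left] at hA hB
    exact hAB (hA.trans hB.symm)
  · rename_i x y e
    rw [e] at hA hB hD
    simp only [List.mem_cons, List.not_mem_nil, or_false, exists_eq_or_imp,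
      exists_eq_left] at hA hB hD
    rcases hA with a1 | a1 <;> rcases hB with b1 | b1 <;> rcases hD with d1 | d1
    · exact hAB (a1.trans b1.symm)
    · exact hAB (a1.trans b1.symm)
    · exact hAD (a1.trans d1.symm)
    · exact hBD (b1.trans d1.symm)
    · exact hBD (b1.trans d1.symm)
    · exact hAD (a1.trans d1.symm)
    · exact hAB (a1.trans b1.symm)
    · exact hAB (a1.trans b1.symm)
  · cases h3

theorem cond_split {b : Bool} {x : Bool} (h : cond b x false = true) : b = true ∧ x = true := by
  cases b <;> simp_all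

theorem Emb.nonadj {C : Ctx V} {m : Nat} {s : Nat → Bool} {N : Nat → List Nat} {φ : Nat → V}
    (h : Emb C m s N φ) {a b : Nat} (ha : a < m) (hb : b < m)
    (hn : nonadj N a b = true) : ¬ C.adj (φ a) (φ b) := by
  intro hadj
  unfold Pool.Agent.H378_PL.nonadj at hn
  cases h1 : mem3 b (N a) with
  | true => rw [h1] at hn; cases hn
  | false =>
    have h1' : b ∉ N a := fun hm => by rw [(mem3_iff b (N a)).2 hm] at h1; cases h1
    rw [h1] at hn
    cases h2 : mem3 a (N b) with
    | true => rw [h2] at hn; cases hn
    | false =>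
      have h2' : a ∉ N b := fun hm => by rw [(mem3_iff a (N b)).2 hm] at h2; cases h2
      rw [h2] at hn
      cases h3 : len3 (N a) with
      | true =>
        obtain ⟨j, hj, e⟩ := h.sat ha h3 hadj
        have := h.inj b hb j (h.lt a ha j hj) e
        exact h1' (this ▸ hj)
      | false =>
        rw [h3] at hn
        cases h4 : len3 (N b) with
        | true =>
          obtain ⟨j, hj, e⟩ := h.sat hb h4 (C.symm _ _ hadj)
          have := h.inj a ha j (h.lt b hb j hj) e
          exact h2' (this ▸ hj)
        | false =>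
          rw [h4] at hn
          simp only [cond_false] at hn
          unfold path3 at hn
          rw [any3_iff] at hn
          obtain ⟨x, hx, hn⟩ := hn
          rw [any3_iff] at hn
          obtain ⟨y, hy, hn⟩ := hn
          have hxm := h.lt a ha x hx
          have hym := h.lt x hxm y hy
          cases h5 : Nat.beq y a with
          | true => rw [h5] at hn; cases hn
          | false =>
            rw [h5] at hn
            simp only [cond_false] at hn
            have hya : y ≠ a := Nat.ne_of_beq_eq_false h5
            have hv := (mem3_iff b (N y)).1 hn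
            have e1 := h.ad a ha x hx
            have e2 := h.ad x hxm y hy
            have e3 := h.ad y hym b hv
            have hne : φ a ≠ φ y := fun e => hya (h.inj a ha y hym e).symm
            have := C.girth (φ a) (φ y) (φ x) (φ b) hne (C.symm _ _ e1) e2 (C.symm _ _ hadj)
              (C.symm _ _ e3)
            have := h.inj x hxm b hb this
            exact h1' (this ▸ hx)

theorem Emb.noCommon {C : Ctx V} {m : Nat} {s : Nat → Bool} {N : Nat → List Nat} {φ : Nat → V}
    (h : Emb C m s N φ) {a b : Nat} (ha : a < m) (hb : b < m)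
    (hn : noCommon N a b = true) (t : V) (h1 : C.adj (φ a) t) (h2 : C.adj (φ b) t) : False := by
  unfold Pool.Agent.H378_PL.noCommon at hn
  cases h3 : cond (len3 (N a)) (all3 (fun t => Pool.Agent.H378_PL.nonadj N t b) (N a)) false with
  | true =>
    obtain ⟨h4, h5⟩ := cond_split h3
    obtain ⟨j, hj, rfl⟩ := h.sat ha h4 h1
    rw [all3_iff] at h5
    exact h.nonadj (h.lt a ha j hj) hb (h5 j hj) (C.symm _ _ h2)
  | false =>
    rw [h3] at hn
    simp only [cond_false] at hn
    obtain ⟨h4, h5⟩ := cond_split hn
    obtain ⟨j, hj, rfl⟩ := h.sat hb h4 h2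
    rw [all3_iff] at h5
    exact h.nonadj (h.lt b hb j hj) ha (h5 j hj) (C.symm _ _ h1)

theorem blt_iff {a b : Nat} : Nat.blt a b = true ↔ a < b := by
  unfold Nat.blt
  rw [Nat.ble_eq]
  exact Iff.rfl

theorem nbeq_iff {a b : Nat} : (!Nat.beq a b) = true ↔ a ≠ b := by
  cases h : Nat.beq a b with
  | true => simp [Nat.eq_of_beq_eq_true h]
  | false => simp [Nat.ne_of_beq_eq_false h]

theorem Emb.chkA1 {C : Ctx V} {m : Nat} {s : Nat → Bool} {N : Nat → List Nat} {φ : Nat → V}
    (h : Emb C m s N φ) {x v y : Nat} (hc : chkA1 m s N x v y = true) : False := by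
  unfold Pool.Agent.H378_PL.chkA1 at hc
  simp only [Bool.and_eq_true, mem3_iff, blt_iff, nbeq_iff, all3_iff] at hc
  obtain ⟨⟨⟨⟨⟨⟨⟨hv, hs⟩, hx⟩, hy⟩, hxy⟩, hx3⟩, hy3⟩, hall⟩ := hc
  have hxm := h.lt v hv x hx
  have hym := h.lt v hv y hy
  have hne : φ x ≠ φ y := fun e => hxy (h.inj x hxm y hym e)
  obtain ⟨a, b, t, hav, hbv, hxa, hyb, hat, hbt⟩ := C.A1 (φ v) (φ x) (φ y) (by rw [h.sd v hv, hs])
    hne (h.ad v hv x hx) (h.ad v hv y hy)
  obtain ⟨a', ha', rfl⟩ := h.sat hxm hx3 hxa
  obtain ⟨b', hb', rfl⟩ := h.sat hym hy3 hyb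
  have h1 := hall a' ha'
  have e1 : Nat.beq a' v = false := by
    cases e : Nat.beq a' v with
    | true => exact absurd (by rw [Nat.eq_of_beq_eq_true e]) hav
    | false => rfl
  have e2 : Nat.beq b' v = false := by
    cases e : Nat.beq b' v with
    | true => exact absurd (by rw [Nat.eq_of_beq_eq_true e]) hbv
    | false => rfl
  rw [e1, cond_false, all3_iff] at h1
  have h2 := h1 b' hb'
  rw [e2, cond_false] at h2
  exact h.noCommon (h.lt x hxm a' ha') (h.lt y hym b' hb') h2 t hat hbt

theorem Emb.chkA2 {C : Ctx V} {m : Nat} {s : Nat → Bool} {N : Nat → List Nat} {φ : Nat → V}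
    (h : Emb C m s N φ) {z1 z2 z3 z4 z5 z6 w2 w3 w5 w6 : Nat}
    (hc : chkA2 m N z1 z2 z3 z4 z5 z6 w2 w3 w5 w6 = true) : False := by
  unfold Pool.Agent.H378_PL.chkA2 at hc
  simp only [Bool.and_eq_true, mem3_iff, blt_iff, nbeq_iff, and_assoc] at hc
  obtain ⟨hz1, a12, a23, a34, a45, a56, a61, n13, n15, n35, n24, n26, n46, b2, b21, b23, b3, b32,
    b34, b5, b54, b56, b6, b65, b61, c1, c2, d1, d2⟩ := hc
  have m2 := h.lt _ hz1 _ a12
  have m3 := h.lt _ m2 _ a23
  have m4 := h.lt _ m3 _ a34
  have m5 := h.lt _ m4 _ a45
  have m6 := h.lt _ m5 _ a56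
  have mw2 := h.lt _ m2 _ b2
  have mw3 := h.lt _ m3 _ b3
  have mw5 := h.lt _ m5 _ b5
  have mw6 := h.lt _ m6 _ b6
  have key := C.A2 (φ z1) (φ z2) (φ z3) (φ z4) (φ z5) (φ z6) (φ w2) (φ w3) (φ w5) (φ w6)
    (h.ad _ hz1 _ a12) (h.ad _ m2 _ a23) (h.ad _ m3 _ a34) (h.ad _ m4 _ a45) (h.ad _ m5 _ a56)
    (h.ad _ m6 _ a61)
    (fun e => n13 (h.inj _ hz1 _ m3 e)) (fun e => n15 (h.inj _ hz1 _ m5 e))
    (fun e => n35 (h.inj _ m3 _ m5 e)) (fun e => n24 (h.inj _ m2 _ m4 e))
    (fun e => n26 (h.inj _ m2 _ m6 e)) (fun e => n46 (h.inj _ m4 _ m6 e))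
    (h.ad _ m2 _ b2) (fun e => b21 (h.inj _ mw2 _ hz1 e)) (fun e => b23 (h.inj _ mw2 _ m3 e))
    (h.ad _ m3 _ b3) (fun e => b32 (h.inj _ mw3 _ m2 e)) (fun e => b34 (h.inj _ mw3 _ m4 e))
    (h.ad _ m5 _ b5) (fun e => b54 (h.inj _ mw5 _ m4 e)) (fun e => b56 (h.inj _ mw5 _ m6 e))
    (h.ad _ m6 _ b6) (fun e => b65 (h.inj _ mw6 _ m5 e)) (fun e => b61 (h.inj _ mw6 _ hz1 e))
  rcases key with ⟨t, t1, t2⟩ | ⟨t, t1, t2⟩ | t1 | t1
  · exact h.noCommon mw2 mw6 c1 t t1 t2
  · exact h.noCommon mw3 mw5 c2 t t1 t2
  · exact h.nonadj mw3 mw6 d1 t1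
  · exact h.nonadj mw2 mw5 d2 t1

theorem nodup3_nodup {l : List Nat} (h : nodup3 l = true) : l.Nodup := by
  unfold nodup3 at h
  split at h
  · exact List.nodup_nil
  · exact List.nodup_singleton _
  · rename_i a b
    rw [nbeq_iff] at h
    simp [h]
  · rename_i a b c
    simp only [Bool.and_eq_true, nbeq_iff] at h
    simp [h]
  · cases h

theorem chkRef_all {mj S M m' : Nat} {s' : Nat → Bool} {N' : Nat → List Nat} {p q : Nat} :
    ∀ {k : Nat}, chkRef mj S M m' s' N' p q k = true → ∀ a, a < k →
      entry p a < m' ∧ entry q (entry p a) = a ∧ sdM S a = s' (entry p a) ∧ (nbM M a).Nodup ∧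
      ∀ b ∈ nbM M a, b < mj ∧ entry p b ∈ N' (entry p a) := by
  intro k
  induction k with
  | zero => intro _ a ha; omega
  | succ k ih =>
    intro h a ha
    unfold chkRef at h
    simp only [Bool.and_eq_true, blt_iff, all3_iff, mem3_iff] at h
    obtain ⟨⟨⟨⟨⟨h1, h2⟩, h3⟩, h4⟩, h5⟩, h6⟩ := h
    rcases Nat.lt_succ_iff_lt_or_eq.1 ha with h7 | rfl
    · exact ih h6 a h7
    · refine ⟨h1, Nat.eq_of_beq_eq_true h2, ?_, nodup3_nodup h4, h5⟩
      cases e : sdM S a with
      | true => rw [e] at h3; exact h3.symm
      | false =>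
        rw [e] at h3
        simp only [cond_false, Bool.not_eq_true'] at h3
        exact h3.symm

theorem Emb.chkRef {C : Ctx V} {m' : Nat} {s' : Nat → Bool} {N' : Nat → List Nat} {φ : Nat → V}
    (h : Emb C m' s' N' φ) {P : Pat} {p q : Nat}
    (hc : chkRef P.m P.S P.M m' s' N' p q P.m = true) (hu : UnP C P) : False := by
  have hall := chkRef_all hc
  apply hu (fun a => φ (entry p a))
  refine ⟨?_, ?_, ?_, ?_, ?_⟩
  · intro i hi j hj e
    have hi' := hall i hi
    have hj' := hall j hj
    have e2 := h.inj _ hi'.1 _ hj'.1 e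
    rw [← hi'.2.1, ← hj'.2.1, e2]
  · intro i hi
    have hi' := hall i hi
    rw [hi'.2.2.1]
    exact h.sd _ hi'.1
  · intro i hi
    exact (hall i hi).2.2.2.1
  · intro i hi j hj
    exact ((hall i hi).2.2.2.2 j hj).1
  · intro i hi j hj
    exact h.ad _ (hall i hi).1 _ ((hall i hi).2.2.2.2 j hj).2

theorem Emb.chkCC {C : Ctx V} {db : Nat → Pat} {nt i m : Nat} {s : Nat → Bool}
    {N : Nat → List Nat} {φ : Nat → V} (hdb : ∀ j, i < j → j < nt → UnP C (db j))
    (h : Emb C m s N φ) {c : CC} (hc : chkCC db nt i m s N c = true) : False := by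
  cases c with
  | a1 x v y => exact h.chkA1 hc
  | a2 z1 z2 z3 z4 z5 z6 w2 w3 w5 w6 => exact h.chkA2 hc
  | ref j p q =>
    unfold Pool.Agent.H378_PL.chkCC at hc
    simp only [Bool.and_eq_true, blt_iff] at hc
    exact h.chkRef hc.2 (hdb j hc.1.1 hc.1.2)

theorem Emb.addE {C : Ctx V} {m : Nat} {s : Nat → Bool} {N : Nat → List Nat} {φ : Nat → V}
    (h : Emb C m s N φ) {v a : Nat} (hv : v < m) (ha : a < m) (h1 : a ∉ N v) (h2 : v ∉ N a)
    (hadj : C.adj (φ v) (φ a)) : Emb C m s (addE N v a) φ := by
  refine ⟨h.inj, h.sd, ?_, ?_, ?_⟩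
  · intro i hi
    unfold Pool.Agent.H378_PL.addE
    cases e : Nat.beq i v with
    | true =>
      simp only [cond_true]
      exact List.nodup_cons.2 ⟨h1, h.nd v hv⟩
    | false =>
      cases e' : Nat.beq i a with
      | true =>
        simp only [cond_true, cond_false]
        exact List.nodup_cons.2 ⟨h2, h.nd a ha⟩
      | false =>
        simp only [cond_false]
        exact h.nd i hi
  · intro i hi j hj
    unfold Pool.Agent.H378_PL.addE at hj
    cases e : Nat.beq i v with
    | true =>
      rw [e] at hj
      simp only [cond_true, List.mem_cons] at hj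
      rcases hj with rfl | hj
      · exact ha
      · exact h.lt v hv j hj
    | false =>
      rw [e] at hj
      cases e' : Nat.beq i a with
      | true =>
        rw [e'] at hj
        simp only [cond_true, cond_false, List.mem_cons] at hj
        rcases hj with rfl | hj
        · exact hv
        · exact h.lt a ha j hj
      | false =>
        rw [e'] at hj
        simp only [cond_false] at hj
        exact h.lt i hi j hj
  · intro i hi j hj
    unfold Pool.Agent.H378_PL.addE at hj
    cases e : Nat.beq i v with
    | true =>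
      rw [e] at hj
      have := Nat.eq_of_beq_eq_true e
      subst this
      simp only [cond_true, List.mem_cons] at hj
      rcases hj with rfl | hj
      · exact hadj
      · exact h.ad i hv j hj
    | false =>
      rw [e] at hj
      cases e' : Nat.beq i a with
      | true =>
        rw [e'] at hj
        have := Nat.eq_of_beq_eq_true e'
        subst this
        simp only [cond_true, cond_false, List.mem_cons] at hj
        rcases hj with rfl | hj
        · exact C.symm _ _ hadj
        · exact h.ad i ha j hj
      | false =>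
        rw [e'] at hj
        simp only [cond_false] at hj
        exact h.ad i hi j hj

theorem Emb.addF {C : Ctx V} {m : Nat} {s : Nat → Bool} {N : Nat → List Nat} {φ : Nat → V}
    (h : Emb C m s N φ) {v : Nat} (hv : v < m) {y : V} (hy : ∀ i, i < m → y ≠ φ i)
    (hadj : C.adj (φ v) y) :
    Emb C (m + 1) (sdF s v m) (addF N v m) (fun i => if i = m then y else φ i) := by
  refine ⟨?_, ?_, ?_, ?_, ?_⟩
  · intro i hi j hj e
    by_cases h1 : i = m <;> by_cases h2 : j = m
    · omega
    · simp only [h1, h2, if_true, if_false] at e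
      exact absurd e (hy j (by omega))
    · simp only [h1, h2, if_true, if_false] at e
      exact absurd e.symm (hy i (by omega))
    · simp only [h1, h2, if_false] at e
      exact h.inj i (by omega) j (by omega) e
  · intro i hi
    unfold sdF
    by_cases h1 : i = m
    · subst h1
      have := C.bip _ _ hadj
      rw [h.sd v hv] at this
      have e : Nat.beq i i = true := Nat.beq_refl i
      simp only [if_true, e, cond_true]
      cases h3 : s v <;> cases h4 : C.side y <;> simp_all
    · have e : Nat.beq i m = false := by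
        cases e : Nat.beq i m with
        | true => exact absurd (Nat.eq_of_beq_eq_true e) h1
        | false => rfl
      simp only [h1, if_false, e, cond_false]
      exact h.sd i (by omega)
  · intro i hi
    unfold Pool.Agent.H378_PL.addF
    cases e : Nat.beq i v with
    | true =>
      simp only [cond_true]
      refine List.nodup_cons.2 ⟨fun hm => ?_, h.nd v hv⟩
      have := h.lt v hv m hm
      omega
    | false =>
      cases e' : Nat.beq i m with
      | true => simp
      | false =>
        simp only [cond_false]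
        exact h.nd i (by have := Nat.ne_of_beq_eq_false e'; omega)
  · intro i hi j hj
    unfold Pool.Agent.H378_PL.addF at hj
    cases e : Nat.beq i v with
    | true =>
      rw [e] at hj
      simp only [cond_true, List.mem_cons] at hj
      rcases hj with rfl | hj
      · omega
      · have := h.lt v hv j hj
        omega
    | false =>
      rw [e] at hj
      cases e' : Nat.beq i m with
      | true =>
        rw [e'] at hj
        simp only [cond_true, cond_false, List.mem_cons, List.not_mem_nil, or_false] at hj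
        omega
      | false =>
        rw [e'] at hj
        simp only [cond_false] at hj
        have := Nat.ne_of_beq_eq_false e'
        have := h.lt i (by omega) j hj
        omega
  · intro i hi j hj
    unfold Pool.Agent.H378_PL.addF at hj
    have hvm : v ≠ m := by omega
    cases e : Nat.beq i v with
    | true =>
      rw [e] at hj
      have := Nat.eq_of_beq_eq_true e
      subst this
      simp only [cond_true, List.mem_cons] at hj
      rcases hj with rfl | hj
      · simp only [hvm, if_true, if_false]
        exact hadj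
      · have := h.lt i hv j hj
        have hjm : j ≠ m := by omega
        simp only [hvm, hjm, if_false]
        exact h.ad i hv j hj
    | false =>
      rw [e] at hj
      cases e' : Nat.beq i m with
      | true =>
        rw [e'] at hj
        have := Nat.eq_of_beq_eq_true e'
        subst this
        simp only [cond_true, cond_false, List.mem_cons, List.not_mem_nil, or_false] at hj
        subst hj
        simp only [hvm, if_true, if_false]
        exact C.symm _ _ hadj
      | false =>
        rw [e'] at hj
        simp only [cond_false] at hj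
        have him := Nat.ne_of_beq_eq_false e'
        have := h.lt i (by omega) j hj
        have hjm : j ≠ m := by omega
        simp only [him, hjm, if_false]
        exact h.ad i (by omega) j hj

theorem Emb.chkSlots {C : Ctx V} {db : Nat → Pat} {nt i m : Nat} {s : Nat → Bool}
    {N : Nat → List Nat} {φ : Nat → V} (hdb : ∀ j, i < j → j < nt → UnP C (db j))
    (h : Emb C m s N φ) {v : Nat} (hv : v < m) {y : V} (hadj : C.adj (φ v) y)
    (hy : ∀ j ∈ N v, y ≠ φ j) : ∀ (k : Nat) (cs : List CC), k ≤ m →
      chkSlots db nt i m s N v k cs = true → (∀ j, k ≤ j → j < m → y ≠ φ j) → False := by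
  intro k
  induction k with
  | zero =>
    intro cs _ hc hk
    unfold Pool.Agent.H378_PL.chkSlots at hc
    split at hc
    · exact (h.addF hv (fun j hj => hk j (Nat.zero_le _) hj) hadj).chkCC hdb hc
    · cases hc
  | succ k ih =>
    intro cs hkm hc hk
    unfold Pool.Agent.H378_PL.chkSlots at hc
    have hkm' : k < m := hkm
    cases e : (cond (s k) (s v) (!(s v)) || mem3 k (N v) || Pool.Agent.H378_PL.nonadj N k v) with
    | true =>
      rw [e] at hc
      simp only [cond_true] at hc
      apply ih cs (by omega) hc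
      intro j hj1 hj2
      rcases Nat.lt_or_ge k j with h1 | h1
      · exact hk j h1 hj2
      · have : j = k := by omega
        subst this
        intro e2
        subst e2
        simp only [Bool.or_eq_true] at e
        rcases e with (e | e) | e
        · have := C.bip _ _ hadj
          rw [h.sd v hv, h.sd j hj2] at this
          cases h3 : s j <;> cases h4 : s v <;> simp_all
        · exact hy j ((mem3_iff _ _).1 e) rfl
        · exact h.nonadj hj2 hv e (C.symm _ _ hadj)
    | false =>
      rw [e] at hc
      simp only [cond_false] at hc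
      split at hc
      · cases hc
      · rename_i c cs'
        simp only [Bool.and_eq_true, Bool.not_eq_true'] at hc
        obtain ⟨⟨h1, h2⟩, h3⟩ := hc
        simp only [Bool.or_eq_false_iff] at e
        have hkv : k ∉ N v := fun hm => by
          rw [(mem3_iff k (N v)).2 hm] at e
          exact absurd e.1.2 (by simp)
        have hvk : v ∉ N k := fun hm => by
          rw [(mem3_iff v (N k)).2 hm] at h1
          cases h1
        by_cases hyk : y = φ k
        · subst hyk
          exact (h.addE hv hkm' hkv hvk hadj).chkCC hdb h2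
        · apply ih cs' (by omega) h3
          intro j hj1 hj2
          rcases Nat.lt_or_ge k j with h4 | h4
          · exact hk j h4 hj2
          · have : j = k := by omega
            rw [this]
            exact hyk

theorem anyPat_mem {p : Pat} {l : List Pat} (h : anyPat p l = true) : p ∈ l := by
  induction l with
  | nil => cases h
  | cons q l ih =>
    unfold anyPat at h
    cases e : patEq p q with
    | true =>
      unfold patEq at e
      simp only [Bool.and_eq_true] at e
      obtain ⟨⟨e1, e2⟩, e3⟩ := e
      have : p = q := by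
        cases p; cases q
        simp only [Pat.mk.injEq]
        exact ⟨Nat.eq_of_beq_eq_true e1, Nat.eq_of_beq_eq_true e2, Nat.eq_of_beq_eq_true e3⟩
      rw [this]
      exact List.mem_cons_self
    | false =>
      rw [e] at h
      exact List.mem_cons_of_mem _ (ih h)

theorem chkNode_sound {C : Ctx V} {db : Nat → Pat} {nt i : Nat} {cl : List Pat}
    (hcl : ∀ q ∈ cl, UnP C q) (hdb : ∀ j, i < j → j < nt → UnP C (db j)) {c : NC}
    (hc : chkNode db nt cl i c = true) : UnP C (db i) := by
  cases c with
  | closed => exact hcl _ (anyPat_mem hc)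
  | slot v cs =>
    unfold chkNode at hc
    simp only [Bool.and_eq_true, blt_iff] at hc
    obtain ⟨⟨hv, h3⟩, hs⟩ := hc
    intro φ h
    obtain ⟨y, hadj, hy⟩ := h.unsat hv h3
    exact h.chkSlots hdb hv hadj hy _ cs le_rfl hs (fun j h1 h2 => absurd h1 (by omega))

theorem chkList_sound {C : Ctx V} {db : Nat → Pat} {nt : Nat} {cl : List Pat}
    (hcl : ∀ q ∈ cl, UnP C q) : ∀ (l : List NC) (i : Nat),
      chkList db nt cl i l = true → (∀ j, i + l.length ≤ j → j < nt → UnP C (db j)) →
      ∀ j, i ≤ j → j < nt → UnP C (db j) := by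
  intro l
  induction l with
  | nil => intro i _ h j hj; exact h j (by simpa using hj)
  | cons c l ih =>
    intro i hc h
    unfold chkList at hc
    simp only [Bool.and_eq_true] at hc
    have h1 : ∀ j, i + 1 ≤ j → j < nt → UnP C (db j) := by
      apply ih (i + 1) hc.2
      intro j hj
      apply h j
      simp only [List.length_cons]
      omega
    intro j hj hjn
    rcases Nat.lt_or_ge i j with h2 | h2
    · exact h1 j h2 hjn
    · have : j = i := by omega
      subst this
      exact chkNode_sound hcl h1 hc.1

end Pool.Agent.H378_PL
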