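import Pool.Agent.H378_PL.CertAll

/-!
The starting pattern embeds, hence no graph of the class avoids the closed patterns.
-/

namespace Pool.Agent.H378_PL

universe u

variable {V : Type u}

theorem db_zero : db 0 = ⟨6, 42, 1199442316173112326636993697⟩ := rfl

theorem start_emb (C : Ctx V) [Nonempty V] : ∃ φ, Emb C (db 0).m (sdM (db 0).S) (nbM (db 0).M) φ := by
  obtain ⟨v, hv⟩ : ∃ v, C.side v = true := by
    obtain ⟨w⟩ := (inferInstance : Nonempty V)
    cases h : C.side w with
    | true => exact ⟨w, h⟩
    | false =>
      obtain ⟨a, b, c, -, -, -, hiff⟩ := C.three w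
      have := C.bip _ _ ((hiff a).2 (Or.inl rfl))
      exact ⟨a, by cases h' : C.side a <;> simp_all⟩
  obtain ⟨x, y, c, hxy, -, -, hiff⟩ := C.three v
  have hvx := (hiff x).2 (Or.inl rfl)
  have hvy := (hiff y).2 (Or.inr (Or.inl rfl))
  obtain ⟨a, b, t, hav, hbv, hxa, hyb, hat, hbt⟩ := C.A1 v x y hv hxy hvx hvy
  have hab : a ≠ b := fun e => by
    subst e
    exact hav (C.girth x y v a hxy hvx hvy (C.symm _ _ hxa) (C.symm _ _ hyb)).symm
  have htx : t ≠ x := fun e => by
    subst e
    exact hbv (C.girth t y v b hxy hvx hvy hbt (C.symm _ _ hyb)).symm
  have hty : t ≠ y := fun e => by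
    subst e
    exact hav (C.girth x t v a hxy hvx hvy (C.symm _ _ hxa) hat).symm
  have sx : C.side x = false := by
    have := C.bip _ _ hvx
    cases h : C.side x <;> simp_all
  have sy : C.side y = false := by
    have := C.bip _ _ hvy
    cases h : C.side y <;> simp_all
  have sa : C.side a = true := by
    have := C.bip _ _ hxa
    cases h : C.side a <;> simp_all
  have sb : C.side b = true := by
    have := C.bip _ _ hyb
    cases h : C.side b <;> simp_all
  have st : C.side t = false := by
    have := C.bip _ _ hat
    cases h : C.side t <;> simp_all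
  -- vertices 0..5 : x, v, y, b, t, a
  refine ⟨fun i => match i with
    | 0 => x | 1 => v | 2 => y | 3 => b | 4 => t | _ => a, ?_⟩
  rw [db_zero]
  have hne1 : ∀ p q : V, C.side p = false → C.side q = true → p ≠ q := fun p q hp hq e => by
    subst e
    rw [hp] at hq
    cases hq
  refine ⟨?_, ?_, ?_, ?_, ?_⟩
  · intro i hi j hj e
    change i < 6 at hi
    change j < 6 at hj
    interval_cases i <;> interval_cases j <;> first
      | rfl
      | (exfalso; exact hxy e)
      | (exfalso; exact hxy e.symm)
      | (exfalso; exact htx e)
      | (exfalso; exact htx e.symm)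
      | (exfalso; exact hty e)
      | (exfalso; exact hty e.symm)
      | (exfalso; exact hab e)
      | (exfalso; exact hab e.symm)
      | (exfalso; exact hav e)
      | (exfalso; exact hav e.symm)
      | (exfalso; exact hbv e)
      | (exfalso; exact hbv e.symm)
      | (exfalso; exact hne1 _ _ (by assumption) (by assumption) e)
      | (exfalso; exact hne1 _ _ (by assumption) (by assumption) e.symm)
  · intro i hi
    change i < 6 at hi
    interval_cases i
    · exact sx
    · exact hv
    · exact sy
    · exact sb
    · exact st
    · exact sa
  · intro i hi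
    change i < 6 at hi
    interval_cases i <;> decide
  · intro i hi
    change i < 6 at hi
    change ∀ j ∈ nbM _ i, j < 6
    interval_cases i <;> decide
  · intro i hi j hj
    change i < 6 at hi
    interval_cases i
    · have : j ∈ [1, 5] := hj
      simp only [List.mem_cons, List.not_mem_nil, or_false] at this
      rcases this with rfl | rfl
      · exact C.symm _ _ hvx
      · exact hxa
    · have : j ∈ [0, 2] := hj
      simp only [List.mem_cons, List.not_mem_nil, or_false] at this
      rcases this with rfl | rfl
      · exact hvx
      · exact hvy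
    · have : j ∈ [1, 3] := hj
      simp only [List.mem_cons, List.not_mem_nil, or_false] at this
      rcases this with rfl | rfl
      · exact C.symm _ _ hvy
      · exact hyb
    · have : j ∈ [2, 4] := hj
      simp only [List.mem_cons, List.not_mem_nil, or_false] at this
      rcases this with rfl | rfl
      · exact C.symm _ _ hyb
      · exact hbt
    · have : j ∈ [3, 5] := hj
      simp only [List.mem_cons, List.not_mem_nil, or_false] at this
      rcases this with rfl | rfl
      · exact C.symm _ _ hbt
      · exact C.symm _ _ hat
    · have : j ∈ [4, 0] := hj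
      simp only [List.mem_cons, List.not_mem_nil, or_false] at this
      rcases this with rfl | rfl
      · exact hat
      · exact C.symm _ _ hxa

theorem search (C : Ctx V) [Nonempty V] (hcl : ∀ q ∈ closedPats, UnP C q) : False := by
  obtain ⟨φ, hφ⟩ := start_emb C
  exact un0 C hcl 0 le_rfl (by decide) φ hφ

end Pool.Agent.H378_PL
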